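import Pool.Agent.H857R2.NC.MPT
import Pool.Agent.Helper570.NCS.Refl

/-!
# Transitive norms on spaces with separable dual are uniformly smooth, so the space is reflexive
-/

set_option autoImplicit false
set_option linter.unusedSectionVars false

namespace Pool.Agent.U234.KM

open Filter Topology TopologicalSpace

variable {E : Type*} [NormedAddCommGroup E] [NormedSpace ℝ E]

lemma le_norm_of {f : StrongDual ℝ E} (hf : ‖f‖ ≤ 1) (z : E) : f z ≤ ‖z‖ := by
  calc f z ≤ |f z| := le_abs_self _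
    _ = ‖f z‖ := rfl
    _ ≤ ‖f‖ * ‖z‖ := f.le_opNorm _
    _ ≤ 1 * ‖z‖ := by gcongr
    _ = ‖z‖ := one_mul _

/-- points of almost differentiability (Baire category) -/
lemma exists_smooth [CompleteSpace E] [SeparableSpace (StrongDual ℝ E)] (hne : ∃ x : E, x ≠ 0)
    {ε : ℝ} (hε : 0 < ε) :
    ∃ (x : E) (r : ℝ), ‖x‖ = 1 ∧ 0 < r ∧ ∀ h, ‖h‖ < r → ‖x + h‖ + ‖x - h‖ ≤ 2 + ε * ‖h‖ := by
  set e : ℝ := ε / 2 with he
  have he0 : 0 < e := by positivity
  set d : ℕ → StrongDual ℝ E := denseSeq (StrongDual ℝ E) with hd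
  set C : ℕ → Set E := fun m =>
    {x | ∀ η > 0, ∃ f : StrongDual ℝ E, ‖f‖ ≤ 1 ∧ ‖f - d m‖ ≤ e ∧ ‖x‖ - η ≤ f x} with hC
  have hclosed : ∀ m, IsClosed (C m) := by
    intro m
    rw [← closure_subset_iff_isClosed]
    intro x hx η hη
    obtain ⟨y, hy, hxy⟩ := Metric.mem_closure_iff.1 hx (η / 3) (by positivity)
    obtain ⟨f, hf1, hf2, hf3⟩ := hy (η / 3) (by positivity)
    refine ⟨f, hf1, hf2, ?_⟩
    rw [dist_eq_norm] at hxy
    have h1 : ‖x‖ ≤ ‖y‖ + ‖x - y‖ := by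
      have := norm_add_le y (x - y)
      rwa [add_sub_cancel] at this
    have h2 := le_norm_of hf1 (y - x)
    rw [map_sub, norm_sub_rev] at h2
    linarith
  have hcover : (⋃ m, C m) = Set.univ := by
    rw [Set.eq_univ_iff_forall]
    intro x
    obtain ⟨f, hf1, hf2⟩ := exists_dual_vector'' ℝ x
    obtain ⟨m, hm⟩ := (denseRange_denseSeq (StrongDual ℝ E)).exists_dist_lt f he0
    rw [Set.mem_iUnion]
    refine ⟨m, fun η hη => ⟨f, hf1, ?_, ?_⟩⟩
    · rw [dist_eq_norm] at hm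
      exact hm.le
    · have : f x = ‖x‖ := hf2
      rw [this]; linarith
  obtain ⟨m, g₀, hg₀⟩ := nonempty_interior_of_iUnion_of_closed hclosed hcover
  obtain ⟨r₀, hr₀, hball⟩ := Metric.isOpen_iff.1 isOpen_interior g₀ hg₀
  have hball2 : Metric.ball g₀ r₀ ⊆ C m := hball.trans interior_subset
  -- a nonzero centre
  obtain ⟨x₁, r, hx₁, hr, hfr⟩ : ∃ (x₁ : E) (r : ℝ), x₁ ≠ 0 ∧ 0 < r ∧
      Metric.ball x₁ r ⊆ C m := by
    rcases eq_or_ne g₀ 0 with h0 | h0
    · obtain ⟨k, hk⟩ := hne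
      have hkn : 0 < ‖k‖ := norm_pos_iff.2 hk
      refine ⟨(r₀ / (2 * ‖k‖)) • k, r₀ / 2, ?_, by positivity, ?_⟩
      · exact smul_ne_zero (by positivity) hk
      · intro f hf
        apply hball2
        rw [Metric.mem_ball, dist_eq_norm] at hf ⊢
        rw [h0, sub_zero]
        have h1 : ‖(r₀ / (2 * ‖k‖)) • k‖ = r₀ / 2 := by
          rw [norm_smul, Real.norm_of_nonneg (by positivity)]
          field_simp
        have h2 := norm_add_le (f - (r₀ / (2 * ‖k‖)) • k) ((r₀ / (2 * ‖k‖)) • k)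
        rw [sub_add_cancel, h1] at h2
        linarith
    · exact ⟨g₀, r₀, h0, hr₀, hball2⟩
  have hn : 0 < ‖x₁‖ := norm_pos_iff.2 hx₁
  -- smoothness at `x₁`
  have key : ∀ h : E, ‖h‖ < r → ‖x₁ + h‖ + ‖x₁ - h‖ ≤ 2 * ‖x₁‖ + 2 * e * ‖h‖ := by
    intro h hh
    refine le_of_forall_pos_le_add fun η hη => ?_
    obtain ⟨f, hf1, hf2, hf3⟩ := hfr (show x₁ + h ∈ Metric.ball x₁ r by
      rw [Metric.mem_ball, dist_eq_norm, add_sub_cancel_left]; exact hh) (η / 2) (by positivity)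
    obtain ⟨g, hg1, hg2, hg3⟩ := hfr (show x₁ - h ∈ Metric.ball x₁ r by
      rw [Metric.mem_ball, dist_eq_norm, sub_sub_cancel_left, norm_neg]; exact hh)
      (η / 2) (by positivity)
    have h1 := le_norm_of hf1 x₁
    have h2 := le_norm_of hg1 x₁
    rw [map_add] at hf3
    rw [map_sub] at hg3
    have h3 : f h - g h ≤ 2 * e * ‖h‖ := by
      have h4 : f h - g h = (f - g) h := rfl
      rw [h4]
      calc (f - g) h ≤ |(f - g) h| := le_abs_self _
        _ = ‖(f - g) h‖ := rfl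
        _ ≤ ‖f - g‖ * ‖h‖ := (f - g).le_opNorm _
        _ ≤ (e + e) * ‖h‖ := by
          gcongr
          have h5 : f - g = (f - d m) - (g - d m) := by abel
          rw [h5]
          exact (norm_sub_le _ _).trans (add_le_add hf2 hg2)
        _ = 2 * e * ‖h‖ := by ring
    linarith
  refine ⟨‖x₁‖⁻¹ • x₁, ‖x₁‖⁻¹ * r, ?_, by positivity, fun h hh => ?_⟩
  · rw [norm_smul, norm_inv, norm_norm, inv_mul_cancel₀ hn.ne']
  · have h1 : ‖‖x₁‖ • h‖ < r := by
      rw [norm_smul, norm_norm]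
      rw [inv_mul_eq_div, lt_div_iff₀ hn] at hh
      linarith
    have h2 := key _ h1
    have e1 : x₁ + ‖x₁‖ • h = ‖x₁‖ • (‖x₁‖⁻¹ • x₁ + h) := by
      rw [smul_add, smul_smul, mul_inv_cancel₀ hn.ne', one_smul]
    have e2 : x₁ - ‖x₁‖ • h = ‖x₁‖ • (‖x₁‖⁻¹ • x₁ - h) := by
      rw [smul_sub, smul_smul, mul_inv_cancel₀ hn.ne', one_smul]
    rw [e1, e2, norm_smul, norm_smul, norm_smul, norm_norm] at h2
    have h3 : ‖x₁‖ * (‖‖x₁‖⁻¹ • x₁ + h‖ + ‖‖x₁‖⁻¹ • x₁ - h‖) ≤ ‖x₁‖ * (2 + 2 * e * ‖h‖) := by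
      nlinarith
    have h4 := le_of_mul_le_mul_left h3 hn
    rw [he] at h4
    linarith

/-- the dual of a transitive space with separable dual is uniformly convex -/
lemma dual_uc [CompleteSpace E] [SeparableSpace (StrongDual ℝ E)]
    (htr : ∀ x y : E, ‖x‖ = 1 → ‖y‖ = 1 → ∃ T : E ≃ₗᵢ[ℝ] E, T x = y) :
    UniformConvexSpace (StrongDual ℝ E) := by
  refine ⟨fun ε hε => ?_⟩
  by_cases hne : ∃ x : E, x ≠ 0
  swap
  · refine ⟨1, one_pos, fun f hf => ?_⟩
    exfalso
    push Not at hne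
    have : f = 0 := by
      ext x
      rw [hne x, map_zero]
      rfl
    rw [this, norm_zero] at hf
    exact zero_ne_one hf
  obtain ⟨x₀, r, hx₀, hr, hsm⟩ := exists_smooth hne (ε := ε / 4) (by positivity)
  have hall : ∀ x h : E, ‖x‖ = 1 → ‖h‖ < r → ‖x + h‖ + ‖x - h‖ ≤ 2 + ε / 4 * ‖h‖ := by
    intro x h hx hh
    obtain ⟨T, hT⟩ := htr x₀ x hx₀ hx
    have h1 := hsm (T.symm h) (by rw [T.symm.norm_map]; exact hh)
    rw [← T.norm_map (x₀ + T.symm h), ← T.norm_map (x₀ - T.symm h), map_add, map_sub,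
      T.apply_symm_apply, hT, T.symm.norm_map] at h1
    exact h1
  set t : ℝ := min (r / 2) 1 with ht
  have ht0 : 0 < t := by positivity
  have ht1 : t ≤ 1 := min_le_right _ _
  have htr' : t < r := lt_of_le_of_lt (min_le_left _ _) (by linarith)
  refine ⟨t * ε / 4, by positivity, fun f hf g hg hfg => ?_⟩
  have hε2 : ε ≤ 2 := by
    have := norm_sub_le f g
    linarith
  -- the direction
  obtain ⟨z, hz1, hz2⟩ : ∃ z : E, ‖z‖ < 1 ∧ ε / 2 < (f - g) z := by
    obtain ⟨z, hz1, hz2⟩ := ContinuousLinearMap.exists_lt_apply_of_lt_opNorm (f - g)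
      (r := ε / 2) (by linarith)
    rw [Real.norm_eq_abs] at hz2
    rcases le_total 0 ((f - g) z) with h | h
    · exact ⟨z, hz1, by rwa [abs_of_nonneg h] at hz2⟩
    · exact ⟨-z, by rwa [norm_neg], by rw [map_neg]; rwa [abs_of_nonpos h] at hz2⟩
  have hzt : ‖t • z‖ < t := by
    rw [norm_smul, Real.norm_of_nonneg ht0.le]
    nlinarith
  have key : ∀ x : E, ‖x‖ = 1 → (f + g) x ≤ 2 - t * ε / 4 := by
    intro x hx
    have h1 := hall x (t • z) hx (hzt.trans htr')
    have h2 := le_norm_of hf.le (x + t • z)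
    have h3 := le_norm_of hg.le (x - t • z)
    rw [map_add, map_smul, smul_eq_mul] at h2
    rw [map_sub, map_smul, smul_eq_mul] at h3
    have h4 : (f - g) z = f z - g z := rfl
    have h5 : (f + g) x = f x + g x := rfl
    rw [h4] at hz2
    have h6 : ε / 4 * ‖t • z‖ ≤ ε / 4 * t := by gcongr
    have h7 : t * (ε / 2) < t * (f z - g z) := by gcongr
    rw [h5]
    nlinarith
  have hb0 : 0 ≤ 2 - t * ε / 4 := by nlinarith
  refine ContinuousLinearMap.opNorm_le_bound _ hb0 fun x => ?_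
  rcases eq_or_ne x 0 with rfl | hx
  · simp
  have hxn : 0 < ‖x‖ := norm_pos_iff.2 hx
  have hk : ∀ x : E, x ≠ 0 → (f + g) x ≤ (2 - t * ε / 4) * ‖x‖ := by
    intro x hx
    have hxn : 0 < ‖x‖ := norm_pos_iff.2 hx
    have h1 := key (‖x‖⁻¹ • x) (by
      rw [norm_smul, norm_inv, norm_norm, inv_mul_cancel₀ hxn.ne'])
    rw [map_smul, smul_eq_mul, inv_mul_eq_div, div_le_iff₀ hxn] at h1
    exact h1
  rw [Real.norm_eq_abs, abs_le]
  constructor
  · have := hk (-x) (neg_ne_zero.2 hx)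
    rw [map_neg, norm_neg] at this
    linarith
  · exact hk x hx

/-- **a space with transitive norm and separable dual is reflexive** -/
theorem reflexive_of_sep_dual [CompleteSpace E] [SeparableSpace (StrongDual ℝ E)]
    (htr : ∀ x y : E, ‖x‖ = 1 → ‖y‖ = 1 → ∃ T : E ≃ₗᵢ[ℝ] E, T x = y) :
    Function.Surjective (NormedSpace.inclusionInDoubleDual ℝ E) := by
  have := dual_uc htr
  exact Pool.Helper570.NCS.refl_of_dual (H857NC.MPT (StrongDual ℝ E))

/-- the dual of a separable Hilbert space is separable -/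
theorem sep_dual_of_hilbert [SeparableSpace E] {H : Type*} [NormedAddCommGroup H]
    [InnerProductSpace ℝ H] [CompleteSpace H] (Φ : E ≃ₗᵢ[ℝ] H) :
    SeparableSpace (StrongDual ℝ E) := by
  let F : E → StrongDual ℝ E := fun e => (innerSL ℝ (Φ e)).comp
    (Φ.toContinuousLinearEquiv : E →L[ℝ] H)
  have hF : Continuous F := by
    have h1 : Continuous fun e => innerSL ℝ (Φ e) := (innerSL ℝ).continuous.comp Φ.continuous
    exact h1.clm_comp continuous_const
  have hs : Function.Surjective F := by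
    intro f
    set g : StrongDual ℝ H := f.comp (Φ.symm.toContinuousLinearEquiv : H →L[ℝ] E) with hg
    refine ⟨Φ.symm ((InnerProductSpace.toDual ℝ H).symm g), ?_⟩
    ext z
    show inner ℝ (Φ (Φ.symm ((InnerProductSpace.toDual ℝ H).symm g))) (Φ z) = f z
    rw [Φ.apply_symm_apply, InnerProductSpace.toDual_symm_apply, hg]
    show f (Φ.symm (Φ z)) = f z
    rw [Φ.symm_apply_apply]
  exact hs.denseRange.separableSpace hF

end Pool.Agent.U234.KM
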