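import Pool.Agent.U234.KM.Main
import Pool.Agent.N314.OP.NearMain

/-!
# Transitive norms with property (M) are Hilbertian
-/

set_option autoImplicit false
set_option linter.unusedSectionVars false
set_option linter.unusedVariables false

namespace Pool.Agent.U234.KM

open Filter Topology BoundedContinuousFunction

section

variable {E : Type*} [NormedAddCommGroup E] [NormedSpace ℝ E]

lemma cl_norm_le {f : ℕ →ᵇ E} {C : ℝ} (h : ∀ n, ‖f n‖ ≤ C) : ‖cl f‖ ≤ C :=
  le_of_tendsto' (tendsto_norm f) h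

/-- the weak limits of a sequence of isometries -/
noncomputable def wlim (hU : N314.OP.UW E) (T : ℕ → E ≃ₗᵢ[ℝ] E) : Function.End E :=
  fun z => Lm hU (TX T (io z))

lemma wlim_apply (hU : N314.OP.UW E) (T : ℕ → E ≃ₗᵢ[ℝ] E) (z : E) :
    (wlim hU T : E → E) z = Lm hU (TX T (io z)) := rfl

lemma wlim_mem (hU : N314.OP.UW E) (T : ℕ → E ≃ₗᵢ[ℝ] E) : wlim hU T ∈ Gb E := by
  refine Gb_of_tendsto (T := T) fun y f => ?_
  rw [wlim_apply, io_apply, TX_cl, Lm_cl]
  exact wl_spec hU (TB T (mkB (fun _ => y) ‖y‖ fun _ => le_rfl)) f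

end

variable {E : Type} [NormedAddCommGroup E] [NormedSpace ℝ E] [CompleteSpace E]
  [TopologicalSpace.SeparableSpace E]

/-- if there are no almost rotations by `π / 4`, then there are nontrivial idempotents -/
theorem idem_of_not_good (hr : Function.Surjective (NormedSpace.inclusionInDoubleDual ℝ E))
    (hU : N314.OP.UW E) (hM : PM E) (hW : N314.OP.WSC E) (hS : N314.OP.Sep E)
    (hinf : ¬ FiniteDimensional ℝ E)
    (htr : ∀ x y : E, ‖x‖ = 1 → ‖y‖ = 1 → ∃ T : E ≃ₗᵢ[ℝ] E, T x = y)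
    {δ : ℝ} (hδ : 0 < δ) (hg : ¬ Good hU δ) :
    ∃ (Q : Function.End E) (x y1 : E), Q ∈ Gb E ∧
      (∀ z, (Q : E → E) ((Q : E → E) z) = (Q : E → E) z) ∧ (Q : E → E) x ≠ x ∧
      (Q : E → E) y1 = y1 ∧ y1 ≠ 0 := by
  obtain ⟨K1, hK1, hstar⟩ := star2 (PX hU) (PX_PX hU) (PX_refl hU hM hW hS) (PX_le hU hM hW hS)
    (PX_le' hU) δ hδ
  obtain ⟨u, hu0, hu1⟩ := N314.OP.exists_null hinf hW
  set x : E := u 0 with hx
  have hx1 : ‖x‖ = 1 := hu1 0
  set t : ℝ := 1 / (4 * (K1 + 1)) with ht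
  have ht0 : 0 < t := by positivity
  have ht1 : K1 * (2 * t) < 1 := by
    rw [ht]
    have : K1 * (2 * (1 / (4 * (K1 + 1)))) = K1 / (2 * (K1 + 1)) := by field_simp; ring
    rw [this, div_lt_one (by positivity)]
    linarith
  have ht2 : t ≤ 1 / 4 := by
    rw [ht]
    apply one_div_le_one_div_of_le (by norm_num)
    linarith
  -- the sequences
  have htu : ∀ n, ‖t • u n‖ = t := fun n => by
    rw [norm_smul, hu1, mul_one, Real.norm_of_nonneg ht0.le]
  have hzn : ∀ n, |‖x + t • u n‖ - 1| ≤ t := by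
    intro n
    have := abs_norm_sub_norm_le (x + t • u n) x
    rwa [hx1, add_sub_cancel_left, htu] at this
  have hzpos : ∀ n, 0 < ‖x + t • u n‖ := fun n => by
    have := (abs_le.1 (hzn n)).1
    linarith
  have hzle : ∀ n, ‖x + t • u n‖ ≤ 2 := fun n => by
    have := (abs_le.1 (hzn n)).2
    linarith
  set ζ : ℕ → E := fun n => ‖x + t • u n‖⁻¹ • (x + t • u n) with hζ
  have hζ1 : ∀ n, ‖ζ n‖ = 1 := fun n => by
    rw [hζ]
    simp only
    rw [norm_smul, norm_inv, norm_norm, inv_mul_cancel₀ (hzpos n).ne']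
  have hζz : ∀ n, x + t • u n = ‖x + t • u n‖ • ζ n := fun n => by
    simp only [hζ]
    rw [smul_smul, mul_inv_cancel₀ (hzpos n).ne', one_smul]
  have hζx : ∀ n, ‖ζ n - x‖ ≤ 2 * t := by
    intro n
    have h1 : ζ n - x = (1 - ‖x + t • u n‖) • ζ n + t • u n := by
      rw [sub_smul, one_smul, ← hζz]
      abel
    rw [h1]
    refine (norm_add_le _ _).trans ?_
    rw [norm_smul, hζ1, mul_one, Real.norm_eq_abs, abs_sub_comm, htu]
    have := hzn n
    linarith
  choose T hT using fun n => htr x (ζ n) hx1 (hζ1 n)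
  -- the image of `x`
  set Z : ℕ →ᵇ E := mkB ζ 1 (fun n => (hζ1 n).le) with hZ
  have hTx : TX T (io x) = cl Z := by
    rw [io_apply, TX_cl]
    congr 1
    ext n
    rw [TB_apply, mkB_apply, hT, hZ, mkB_apply]
  have hdist : ‖TX T (io x) - io x‖ ≤ 2 * t := by
    rw [hTx, io_apply, ← cl_sub]
    exact cl_norm_le fun n => hζx n
  -- `x` is not mapped into `E`
  have hnot : PX hU (TX T (io x)) ≠ 0 := by
    intro h0
    rw [hTx] at h0
    set uu : ℕ →ᵇ E := mkB u 1 (fun n => (hu1 n).le) with huu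
    set zz : ℕ →ᵇ E := mkB (fun n => x + t • u n) 2 hzle with hzz
    have h1 : cl zz = ‖cl zz‖ • cl Z := by
      rw [← cl_smul, cl_eq]
      have h2 : Tendsto (fun n => |‖zz n‖ - ‖cl zz‖|) (hyperfilter ℕ : Filter ℕ) (𝓝 0) := by
        have := ((tendsto_norm zz).sub (tendsto_const_nhds (x := ‖cl zz‖))).abs
        simpa using this
      refine h2.congr fun n => ?_
      have h3 : zz n - (‖cl zz‖ • Z) n = (‖zz n‖ - ‖cl zz‖) • ζ n := by
        show (x + t • u n) - ‖cl zz‖ • ζ n = (‖x + t • u n‖ - ‖cl zz‖) • ζ n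
        rw [sub_smul, ← hζz]
      rw [h3, norm_smul, hζ1, mul_one, Real.norm_eq_abs]
    have h4 : cl zz = io x + t • cl uu := by
      rw [io_apply, ← cl_smul, ← cl_add]
      congr 1
    have h5 : Lm hU (cl uu) = 0 := by
      rw [Lm_cl]
      apply wl_eq
      intro g
      rw [map_zero]
      exact (hu0 g).mono_left Nat.hyperfilter_le_atTop
    have h6 : PX hU (cl uu) = cl uu := by rw [PX_apply, h5, map_zero, sub_zero]
    have h7 : PX hU (cl zz) = 0 := by rw [h1, map_smul, h0, smul_zero]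
    rw [h4, map_add, map_smul, PX_io, zero_add, h6] at h7
    have h8 : ‖cl uu‖ = 1 := by
      apply norm_cl_eq
      refine tendsto_const_nhds.congr fun n => ?_
      exact (hu1 n).symm
    rcases smul_eq_zero.1 h7 with h9 | h9
    · exact ht0.ne' h9
    · rw [h9, norm_zero] at h8
      exact zero_ne_one h8
  -- a common fixed vector
  obtain ⟨ξ, hξ1, hξ2, hξ3⟩ : ∃ ξ : X E, PX hU ξ = 0 ∧ PX hU (TX T ξ) = 0 ∧ ξ ≠ 0 := by
    by_contra hcon
    push Not at hcon
    refine hg (hstar (TX T).symm (io x) (by rw [LinearIsometry.norm_map, hx1]) (PX_io hU x) ?_ ?_)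
    · intro z hz1 hz2
      rw [LinearIsometryEquiv.symm_symm] at hz2
      refine hcon z hz1 ?_
      have := congrArg (TX T) hz2
      rwa [LinearIsometryEquiv.apply_symm_apply, map_zero] at this
    · rw [LinearIsometryEquiv.symm_symm]
      refine lt_of_le_of_lt (mul_le_mul_of_nonneg_left ?_ hK1.le) ht1
      refine (PX_le' hU _).trans ?_
      rw [LinearIsometryEquiv.norm_map]
      have h1 : PX hU (TX T (io x)) = PX hU (TX T (io x) - io x) := by
        rw [map_sub, PX_io, sub_zero]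
      rw [h1]
      exact (PX_le hU hM hW hS _).trans hdist
  set y1 : E := Lm hU ξ with hy1
  have hξ : ξ = io y1 := (PX_zero_iff hU ξ).1 hξ1
  have hy10 : y1 ≠ 0 := by
    intro h
    rw [h, map_zero] at hξ
    exact hξ3 hξ
  -- the weak limits
  set A : Function.End E := wlim hU T with hA
  set B : Function.End E := wlim hU (fun n => (T n).symm) with hB
  have hAm : A ∈ Gb E := wlim_mem hU T
  have hBm : B ∈ Gb E := wlim_mem hU _
  have hBX : ∀ z, (B : E → E) z = Lm hU ((TX T).symm (io z)) := fun z => rfl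
  have hD1 : (B : E → E) ((A : E → E) y1) = y1 := by
    rw [hξ] at hξ2
    have h1 : TX T (io y1) = io ((A : E → E) y1) := (PX_zero_iff hU _).1 hξ2
    rw [hBX, ← h1, LinearIsometryEquiv.symm_apply_apply, Lm_io]
  have hAx : ‖(A : E → E) x‖ < 1 := by
    have h1 : ‖(A : E → E) x‖ ≤ 1 := by
      have := Gb_norm hAm x
      rwa [hx1] at this
    refine lt_of_le_of_ne h1 fun h2 => hnot ?_
    apply kk_X hr hU htr T x
    rw [hx1]
    exact h2
  have hD2 : ‖((B * A : Function.End E) : E → E) x‖ < 1 :=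
    lt_of_le_of_lt (Gb_norm hBm _) hAx
  obtain ⟨Q, hQ1, hQ2, hQ3, hQ4⟩ := exists_idem hr (Gb_mul hBm hAm) (x := x) (y1 := y1) hD1 le_rfl
  refine ⟨Q, x, y1, hQ1, hQ4, fun h => ?_, hQ2, hy10⟩
  rw [h, hx1] at hQ3
  linarith

/-- **transitive norms with property (M) are Hilbertian** -/
theorem hilbert_of_pm (hr : Function.Surjective (NormedSpace.inclusionInDoubleDual ℝ E))
    (hM : PM E) (hinf : ¬ FiniteDimensional ℝ E)
    (htr : ∀ x y : E, ‖x‖ = 1 → ‖y‖ = 1 → ∃ T : E ≃ₗᵢ[ℝ] E, T x = y) :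
    ∃ (H : Type) (_ : NormedAddCommGroup H) (_ : InnerProductSpace ℝ H)
        (_ : CompleteSpace H), Nonempty (E ≃ₗᵢ[ℝ] H) := by
  have hS : N314.OP.Sep E := N314.OP.sep_of_separable
  have hU : N314.OP.UW E := N314.OP.uw_of_reflexive hr
  have hW := N314.OP.wsc_of_uw hU hS
  by_cases hg : ∀ δ : ℝ, 0 < δ → Good hU δ
  · exact ⟨E, inferInstance,
      InnerProductSpace.ofNorm ℝ (par_of_good hU hM hW hS htr hg), inferInstance,
      ⟨LinearIsometryEquiv.refl ℝ E⟩⟩
  · push Not at hg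
    obtain ⟨δ, hδ, hg⟩ := hg
    obtain ⟨Q, x, y1, h1, h2, h3, h4, h5⟩ := idem_of_not_good hr hU hM hW hS hinf htr hδ hg
    exact hilbert_of_idem hr hM hW hS htr h1 h2 h3 h4 h5

/-- Hilbert spaces have property (M) -/
theorem pm_of_hilbert {E : Type*} [NormedAddCommGroup E] [NormedSpace ℝ E] {H : Type*}
    [NormedAddCommGroup H] [InnerProductSpace ℝ H] (Φ : E ≃ₗᵢ[ℝ] H) : PM E := by
  intro u hu x y hxy
  -- the functional
  let f : StrongDual ℝ E := (innerSL ℝ (Φ (x - y))).comp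
    (Φ.toContinuousLinearEquiv : E →L[ℝ] H)
  have hf : ∀ z, f z = inner ℝ (Φ (x - y)) (Φ z) := fun z => rfl
  have h1 : Tendsto (fun n => |2 * f (u n)|) atTop (𝓝 0) := by
    have := ((hu f).const_mul 2).abs
    simpa using this
  have h2 : Tendsto (fun n => Real.sqrt |2 * f (u n)|) atTop (𝓝 0) := by
    have := h1.sqrt
    rwa [Real.sqrt_zero] at this
  refine squeeze_zero_norm (fun n => ?_) h2
  rw [Real.norm_eq_abs]
  apply Real.abs_le_sqrt
  have e1 : ‖x + u n‖ ^ 2 = ‖Φ x‖ ^ 2 + 2 * inner ℝ (Φ x) (Φ (u n)) + ‖Φ (u n)‖ ^ 2 := by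
    rw [← Φ.norm_map (x + u n), map_add, norm_add_sq_real]
  have e2 : ‖y + u n‖ ^ 2 = ‖Φ y‖ ^ 2 + 2 * inner ℝ (Φ y) (Φ (u n)) + ‖Φ (u n)‖ ^ 2 := by
    rw [← Φ.norm_map (y + u n), map_add, norm_add_sq_real]
  have e3 : ‖x + u n‖ ^ 2 - ‖y + u n‖ ^ 2 = 2 * f (u n) := by
    rw [e1, e2, hf, map_sub, inner_sub_left, Φ.norm_map x, Φ.norm_map y, hxy]
    ring
  have h3 : (‖x + u n‖ - ‖y + u n‖) ^ 2 ≤ |‖x + u n‖ ^ 2 - ‖y + u n‖ ^ 2| := by
    have e4 : ‖x + u n‖ ^ 2 - ‖y + u n‖ ^ 2 =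
        (‖x + u n‖ - ‖y + u n‖) * (‖x + u n‖ + ‖y + u n‖) := by ring
    rw [e4, abs_mul, ← sq_abs, sq]
    refine mul_le_mul_of_nonneg_left ?_ (abs_nonneg _)
    rw [abs_of_nonneg (by positivity : 0 ≤ ‖x + u n‖ + ‖y + u n‖), abs_le]
    constructor <;> linarith [norm_nonneg (x + u n), norm_nonneg (y + u n)]
  rw [e3] at h3
  exact h3

end Pool.Agent.U234.KM
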