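import Mathlib

/-!
# The parallelogram law from a rotation by `π / 4` and an isotropic summand
-/

set_option autoImplicit false

namespace Pool.Agent.U234.KM

variable {X : Type*} [NormedAddCommGroup X] [NormedSpace ℝ X]

/-- two points at distance `2 a` with the same value -/
lemma same_value {κ ρ : ℝ} (hκ : 1 / 2 ≤ κ) (hρ : 0 < ρ) {y w : X} (hy : ‖y‖ ≤ ρ) (hw : ‖w‖ = 1)
    {a : ℝ} (ha : 0 ≤ a) :
    ∃ s : ℝ, |s| ≤ 4 * ρ + 2 * a ∧ ‖y + (κ * s) • w‖ = ‖y + (κ * (s + 2 * a)) • w‖ := by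
  set g : ℝ → ℝ := fun s => ‖y + (κ * s) • w‖ with hg
  have hκ0 : 0 < κ := by linarith
  have hgc : Continuous g := by fun_prop
  have hlow : ∀ s, κ * |s| - ‖y‖ ≤ g s := by
    intro s
    have h1 : ‖(κ * s) • w‖ ≤ ‖y + (κ * s) • w‖ + ‖y‖ := by
      have := norm_sub_le (y + (κ * s) • w) y
      rwa [add_sub_cancel_left] at this
    rw [norm_smul, hw, mul_one, Real.norm_eq_abs, abs_mul, abs_of_pos hκ0] at h1
    simp only [hg]
    linarith
  -- convexity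
  have hconv : ∀ s t : ℝ, ∀ θ : ℝ, 0 ≤ θ → θ ≤ 1 → g ((1 - θ) * s + θ * t) ≤ (1 - θ) * g s + θ * g t := by
    intro s t θ h0 h1
    have e : y + (κ * ((1 - θ) * s + θ * t)) • w =
        (1 - θ) • (y + (κ * s) • w) + θ • (y + (κ * t) • w) := by
      module
    simp only [hg]
    rw [e]
    refine (norm_add_le _ _).trans ?_
    rw [norm_smul, norm_smul, Real.norm_of_nonneg h0, Real.norm_of_nonneg (by linarith : 0 ≤ 1 - θ)]
  have h0 : g 0 = ‖y‖ := by simp [hg]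
  -- monotonicity outside
  have hmono : ∀ L M : ℝ, 4 * ρ ≤ |L| → (∃ θ : ℝ, 0 < θ ∧ θ ≤ 1 ∧ L = θ * M) → g L ≤ g M := by
    rintro L M hL ⟨θ, hθ0, hθ1, hLM⟩
    have h1 := hconv 0 M θ hθ0.le hθ1
    rw [mul_zero, zero_add, ← hLM, h0] at h1
    have h2 := hlow L
    have h3 : 2 * ρ ≤ κ * |L| := by nlinarith [abs_nonneg L]
    have h4 : ‖y‖ ≤ g L := by linarith
    have h5 : θ * g L ≤ θ * g M := by nlinarith
    exact le_of_mul_le_mul_left h5 hθ0
  have hD : Continuous fun s => g (s + 2 * a) - g s := by fun_prop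
  have hend1 : 0 ≤ g (4 * ρ + 2 * a) - g (4 * ρ) := by
    have := hmono (4 * ρ) (4 * ρ + 2 * a) (le_abs_self _)
      ⟨4 * ρ / (4 * ρ + 2 * a), by positivity, by
        rw [div_le_one (by positivity)]; linarith, by field_simp⟩
    linarith
  have hend2 : g (-(4 * ρ + 2 * a) + 2 * a) - g (-(4 * ρ + 2 * a)) ≤ 0 := by
    have := hmono (-(4 * ρ + 2 * a) + 2 * a) (-(4 * ρ + 2 * a))
      (by
        have e : -(4 * ρ + 2 * a) + 2 * a = -(4 * ρ) := by ring
        rw [e, abs_neg]; exact le_abs_self _)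
      ⟨4 * ρ / (4 * ρ + 2 * a), by positivity, by
        rw [div_le_one (by positivity)]; linarith, by field_simp; ring⟩
    linarith
  have hle : -(4 * ρ + 2 * a) ≤ 4 * ρ := by linarith
  obtain ⟨s, hs, hs0⟩ := intermediate_value_Icc hle hD.continuousOn ⟨hend2, hend1⟩
  refine ⟨s, abs_le.2 ⟨hs.1, by linarith [hs.2]⟩, ?_⟩
  have : g (s + 2 * a) = g s := by
    simp only at hs0
    linarith
  simp only [hg] at this
  exact this.symm

/-- the parallelogram law, approximately -/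
theorem par_approx (P : X →L[ℝ] X) (hP : ∀ x, P (P x) = P x) (hP2 : ∀ z, ‖z - P z‖ ≤ ‖z‖)
    (hiso : ∀ ξ η : X, P ξ = P η → ‖ξ - P ξ‖ = ‖η - P η‖ → ‖ξ‖ = ‖η‖)
    {ρ : ℝ} (hρ : 0 < ρ) {δ : ℝ} (hδ0 : 0 < δ) (hδ1 : δ ≤ 1)
    (w v : X) (V : X ≃ₗᵢ[ℝ] X) (hPw : P w = 0) (hw : ‖w‖ = 1) (hPv : P v = v)
    (hVw : ‖V w - Real.sqrt (1 / 2) • (w + v)‖ ≤ δ)
    (hVv : ‖V v - Real.sqrt (1 / 2) • (v - w)‖ ≤ δ)
    (heu : ∀ p q : ℝ, |‖p • w + q • v‖ - Real.sqrt (p ^ 2 + q ^ 2)| ≤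
      δ * Real.sqrt (p ^ 2 + q ^ 2))
    (y : X) (hPy : P y = 0) (hy : ‖y‖ ≤ ρ) (a : ℝ) (ha0 : 0 ≤ a) (ha1 : a ≤ ρ) :
    |‖y + a • w‖ ^ 2 + ‖y - a • w‖ ^ 2 - 2 * ‖y‖ ^ 2 - 2 * a ^ 2| ≤ 3200 * ρ ^ 2 * δ := by
  set κ : ℝ := Real.sqrt (1 / 2) with hκ
  have hκ2 : κ ^ 2 = 1 / 2 := Real.sq_sqrt (by norm_num)
  have hκ0 : 0 ≤ κ := Real.sqrt_nonneg _
  have hκh : 1 / 2 ≤ κ := by
    apply Real.le_sqrt_of_sq_le
    norm_num
  set y1 : X := V y - P (V y) with hy1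
  have hPy1 : P y1 = 0 := by rw [hy1, map_sub, hP, sub_self]
  have hy1n : ‖y1‖ ≤ ρ := (hP2 _).trans (by rw [V.norm_map]; exact hy)
  obtain ⟨s, hs, hsame⟩ := same_value hκh hρ hy1n hw ha0
  -- the norm of `V y + α w + β v`
  set ζ : ℝ → ℝ → X := fun α β => V y + α • w + β • v with hζ
  have hζiso : ∀ α α' β : ℝ, ‖y1 + α • w‖ = ‖y1 + α' • w‖ → ‖ζ α β‖ = ‖ζ α' β‖ := by
    intro α α' β h
    have hp : ∀ α : ℝ, P (ζ α β) = P (V y) + β • v := by
      intro α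
      simp only [hζ]
      rw [map_add, map_add, map_smul, map_smul, hPw, hPv, smul_zero, add_zero]
    have hq : ∀ α : ℝ, ζ α β - P (ζ α β) = y1 + α • w := by
      intro α
      rw [hp, hy1]
      simp only [hζ]
      abel
    apply hiso
    · rw [hp, hp]
    · rw [hq, hq]; exact h
  have hz : ∀ (z : X) (c : ℝ), P z = 0 →
      |‖z + c • v‖ - Real.sqrt (‖z‖ ^ 2 + c ^ 2)| ≤ δ * Real.sqrt (‖z‖ ^ 2 + c ^ 2) := by
    intro z c hPz
    have h1 : ‖z + c • v‖ = ‖‖z‖ • w + c • v‖ := by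
      apply hiso
      · rw [map_add, map_add, map_smul, map_smul, hPz, hPw, smul_zero]
      · rw [map_add, map_add, map_smul, map_smul, hPz, hPw, hPv, smul_zero, zero_add,
          add_sub_cancel_right, add_sub_cancel_right, norm_smul, norm_norm, hw, mul_one]
    rw [h1]
    exact heu _ _
  -- comparison
  have key : ∀ b c : ℝ, |b| + |c| ≤ 9 * ρ →
      |‖ζ (κ * (b - c)) (κ * (b + c))‖ ^ 2 - (‖y + b • w‖ ^ 2 + c ^ 2)| ≤ 800 * ρ ^ 2 * δ := by
    intro b c hbc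
    have hPb : P (y + b • w) = 0 := by rw [map_add, map_smul, hPy, hPw, smul_zero, add_zero]
    set S : ℝ := Real.sqrt (‖y + b • w‖ ^ 2 + c ^ 2) with hS
    have hS0 : 0 ≤ S := Real.sqrt_nonneg _
    have hS2 : S ^ 2 = ‖y + b • w‖ ^ 2 + c ^ 2 := Real.sq_sqrt (by positivity)
    have hb0 := abs_nonneg b
    have hc0 := abs_nonneg c
    have hSle : S ≤ 10 * ρ := by
      have h1 : ‖y + b • w‖ ≤ ρ + |b| := by
        refine (norm_add_le _ _).trans ?_
        rw [norm_smul, hw, mul_one, Real.norm_eq_abs]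
        linarith
      have h2 : S ^ 2 ≤ (ρ + |b| + |c|) ^ 2 := by
        rw [hS2, ← sq_abs c]
        have h3 : ‖y + b • w‖ ^ 2 ≤ (ρ + |b|) ^ 2 := by
          have := norm_nonneg (y + b • w)
          gcongr
        nlinarith
      have h3 : S ≤ ρ + |b| + |c| := by
        have : 0 ≤ ρ + |b| + |c| := by positivity
        exact (sq_le_sq₀ hS0 this).1 h2
      linarith
    have h1 : |‖ζ (κ * (b - c)) (κ * (b + c))‖ - ‖y + b • w + c • v‖| ≤ (|b| + |c|) * δ := by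
      rw [← V.norm_map (y + b • w + c • v)]
      refine (abs_norm_sub_norm_le _ _).trans ?_
      have e : ζ (κ * (b - c)) (κ * (b + c)) - V (y + b • w + c • v) =
          -(b • (V w - κ • (w + v))) - c • (V v - κ • (v - w)) := by
        simp only [hζ]
        rw [map_add, map_add, map_smul, map_smul]
        module
      rw [e]
      refine (norm_sub_le _ _).trans ?_
      rw [norm_neg, norm_smul, norm_smul, Real.norm_eq_abs, Real.norm_eq_abs, add_mul]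
      exact add_le_add (mul_le_mul_of_nonneg_left hVw hb0) (mul_le_mul_of_nonneg_left hVv hc0)
    have h2 := hz (y + b • w) c hPb
    rw [← hS] at h2
    set N : ℝ := ‖ζ (κ * (b - c)) (κ * (b + c))‖ with hN
    have hN0 : 0 ≤ N := norm_nonneg _
    have h3 : |N - S| ≤ 20 * ρ * δ := by
      have e : N - S = (N - ‖y + b • w + c • v‖) + (‖y + b • w + c • v‖ - S) := by ring
      rw [e]
      refine (abs_add_le _ _).trans ?_
      have h4 : (|b| + |c|) * δ ≤ 9 * ρ * δ := mul_le_mul_of_nonneg_right hbc hδ0.le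
      have h5 : δ * S ≤ δ * (10 * ρ) := mul_le_mul_of_nonneg_left hSle hδ0.le
      nlinarith
    rw [← hS2]
    have h4 : N ^ 2 - S ^ 2 = (N - S) * (N + S) := by ring
    rw [h4, abs_mul, abs_of_nonneg (by linarith : 0 ≤ N + S)]
    have h5 : N + S ≤ 40 * ρ := by
      have h6 := (abs_le.1 h3).2
      have h7 : 20 * ρ * δ ≤ 20 * ρ * 1 := mul_le_mul_of_nonneg_left hδ1 (by positivity)
      linarith
    calc |N - S| * (N + S) ≤ (20 * ρ * δ) * (40 * ρ) := by gcongr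
      _ = 800 * ρ ^ 2 * δ := by ring
  -- the four points
  have hsa : |s| ≤ 6 * ρ := by linarith
  have habs := abs_le.1 hsa
  have haa : |a| = a := abs_of_nonneg ha0
  have b1 : |(0:ℝ)| + |-s| ≤ 9 * ρ := by
    rw [abs_zero, abs_neg]; linarith
  have b2 : |a| + |-s - a| ≤ 9 * ρ := by
    have : |-s - a| ≤ |s| + |a| := by
      have := abs_sub (-s) a
      rwa [abs_neg] at this
    rw [haa] at this ⊢
    linarith
  have b3 : |-a| + |-s - a| ≤ 9 * ρ := by rw [abs_neg]; exact b2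
  have b4 : |(0:ℝ)| + |-s - 2 * a| ≤ 9 * ρ := by
    have : |-s - 2 * a| ≤ |s| + |2 * a| := by
      have := abs_sub (-s) (2 * a)
      rwa [abs_neg] at this
    rw [abs_mul, haa, abs_two] at this
    rw [abs_zero]
    linarith
  have k1 := key 0 (-s) b1
  have k2 := key a (-s - a) b2
  have k3 := key (-a) (-s - a) b3
  have k4 := key 0 (-s - 2 * a) b4
  have e1 : ‖ζ (κ * (0 - -s)) (κ * (0 + -s))‖ = ‖ζ (κ * (a - (-s - a))) (κ * (a + (-s - a)))‖ := by
    have g1 : κ * (0 - -s) = κ * s := by ring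
    have g2 : κ * (a - (-s - a)) = κ * (s + 2 * a) := by ring
    have g3 : κ * (a + (-s - a)) = κ * (0 + -s) := by ring
    rw [g1, g2, g3]
    exact hζiso _ _ _ hsame
  have e2 : ‖ζ (κ * (-a - (-s - a))) (κ * (-a + (-s - a)))‖ =
      ‖ζ (κ * (0 - (-s - 2 * a))) (κ * (0 + (-s - 2 * a)))‖ := by
    have g1 : κ * (-a - (-s - a)) = κ * s := by ring
    have g2 : κ * (0 - (-s - 2 * a)) = κ * (s + 2 * a) := by ring
    have g3 : κ * (-a + (-s - a)) = κ * (0 + (-s - 2 * a)) := by ring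
    rw [g1, g2, g3]
    exact hζiso _ _ _ hsame
  rw [e1, zero_smul, add_zero] at k1
  rw [e2] at k3
  rw [zero_smul, add_zero] at k4
  have e3 : y + (-a) • w = y - a • w := by rw [neg_smul, sub_eq_add_neg]
  rw [e3] at k3
  set N2 : ℝ := ‖ζ (κ * (a - (-s - a))) (κ * (a + (-s - a)))‖ ^ 2
  set N4 : ℝ := ‖ζ (κ * (0 - (-s - 2 * a))) (κ * (0 + (-s - 2 * a)))‖ ^ 2
  have k1' := abs_le.1 k1
  have k2' := abs_le.1 k2
  have k3' := abs_le.1 k3
  have k4' := abs_le.1 k4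
  rw [abs_le]
  constructor
  · nlinarith [k1'.1, k1'.2, k2'.1, k2'.2, k3'.1, k3'.2, k4'.1, k4'.2]
  · nlinarith [k1'.1, k1'.2, k2'.1, k2'.2, k3'.1, k3'.2, k4'.1, k4'.2]

end Pool.Agent.U234.KM
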