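import Pool.Agent.W687.RotIso1

/-!
# Small rotations from two projections without common kernel

A variant of `Pool.Agent.W687.Rot.star` (the proof is the same except for the input): the projection
and its conjugate are given, and instead of an estimate from below it is assumed that their kernels
have intersection zero.
-/

set_option autoImplicit false
set_option linter.unusedVariables false

namespace Pool.Agent.U234.KM

open Pool.H590R3.Ab Pool.Agent.W687.Rot

variable {E : Type*} [NormedAddCommGroup E] [NormedSpace ℝ E]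

/-- almost rotations by `π / 4` in almost Euclidean planes, if the kernel of `P` is not the sum of
`0` and common fixed vectors: the fixed point free case -/
theorem star2 [CompleteSpace E]
    (P : E →L[ℝ] E) (hP : ∀ x, P (P x) = P x)
    (hs : ∀ z, ‖z - (2 : ℝ) • P z‖ = ‖z‖)
    (hP1 : ∀ z, ‖P z‖ ≤ ‖z‖) (hP2 : ∀ z, ‖z - P z‖ ≤ ‖z‖)
    (δ : ℝ) (hδ : 0 < δ) :
    ∃ K1 : ℝ, 0 < K1 ∧ ∀ (T : E ≃ₗᵢ[ℝ] E) (y0 : E), ‖y0‖ = 1 → P y0 = 0 →
      (∀ z, P z = 0 → T (P (T.symm z)) = 0 → z = 0) →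
      K1 * ‖T (P (T.symm y0)) - P (T (P (T.symm y0)))‖ < 1 →
    ∃ (w v : E) (V : E ≃ₗᵢ[ℝ] E), P w = 0 ∧ ‖w‖ = 1 ∧ P v = v ∧ ‖v‖ = 1 ∧
      ‖V w - Real.sqrt (1 / 2) • (w + v)‖ ≤ δ ∧ ‖V v - Real.sqrt (1 / 2) • (v - w)‖ ≤ δ ∧
      ∀ p q : ℝ, |‖p • w + q • v‖ - Real.sqrt (p ^ 2 + q ^ 2)| ≤ δ * Real.sqrt (p ^ 2 + q ^ 2) := by
  have hpi := Real.pi_pos
  have hpi3 := Real.pi_gt_three
  have hpi4 := Real.pi_le_four
  set c : ℝ := min (δ / 9) (1 / 16) with hc
  have hc0 : 0 < c := by positivity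
  have hc1 : c ≤ 1 / 16 := min_le_right _ _
  have hc2 : c ≤ δ / 9 := min_le_left _ _
  set r : ℝ := 1 - Real.cos c with hr
  have hr0 : 0 < r := by
    have := Real.cos_lt_cos_of_nonneg_of_le_pi_div_two le_rfl (by linarith : c ≤ Real.pi / 2) hc0
    rw [Real.cos_zero] at this
    linarith
  have hcosc : 0 < Real.cos c := Real.cos_pos_of_mem_Ioo ⟨by linarith, by linarith⟩
  have hr1 : r < 1 := by linarith
  obtain ⟨K0, hK0, hspec⟩ := spec (E := E) r hr0
  refine ⟨2 * K0, by positivity, fun T y0 hy0 hy hker hK1 => ?_⟩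
  set R : E →L[ℝ] E := op T * P * op T⁻¹ with hRdef
  have hRa : ∀ z, R z = T (P (T.symm z)) := fun z => rfl
  have hR1 : ∀ z, ‖R z‖ ≤ ‖z‖ := by
    intro z
    rw [hRa, T.norm_map]
    refine (hP1 _).trans ?_
    rw [T.symm.norm_map]
  set s : E ≃ₗᵢ[ℝ] E := rfx P hP hs with hsdef
  have hs2 : s * s = 1 := rfx_sq P hP hs
  have hsinv : s⁻¹ = s := inv_eq_of_mul_eq_one_left hs2
  have hsa : ∀ z, s z = z - (2:ℝ) • P z := fun z => rfx_apply P hP hs z
  have hfix : ∀ z, s z = z ↔ P z = 0 := by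
    intro z
    rw [hsa]
    constructor
    · intro h
      have : (2:ℝ) • P z = 0 := by
        have := sub_eq_self.1 h
        exact this
      exact (smul_eq_zero.1 this).resolve_left (by norm_num)
    · intro h
      rw [h, smul_zero, sub_zero]
  set sg : E ≃ₗᵢ[ℝ] E := T * s * T⁻¹ with hsg
  have hsga : ∀ z, sg z = z - (2:ℝ) • R z := by
    intro z
    show T (s (T.symm z)) = _
    rw [hsa, map_sub, map_smul, T.apply_symm_apply, hRa]
  have hsg2 : sg * sg = 1 := by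
    rw [hsg]
    calc T * s * T⁻¹ * (T * s * T⁻¹) = T * (s * s) * T⁻¹ := by group
      _ = 1 := by rw [hs2]; group
  have hsginv : sg⁻¹ = sg := inv_eq_of_mul_eq_one_left hsg2
  set U : E ≃ₗᵢ[ℝ] E := s * sg with hU
  have hUinv : U⁻¹ = sg * s := by rw [hU, mul_inv_rev, hsinv, hsginv]
  have hsU : s * U * s⁻¹ = U⁻¹ := by
    rw [hUinv, hsinv, hU, ← mul_assoc, hs2, one_mul]
  have hUa : ∀ z, P z = 0 → U z = z - (2:ℝ) • R z + (4:ℝ) • P (R z) := by
    intro z hz
    show s (sg z) = _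
    rw [hsga, hsa, map_sub, map_smul, hz]
    module
  have hUia : ∀ z, P z = 0 → U⁻¹ z = z - (2:ℝ) • R z := by
    intro z hz
    rw [hUinv]
    show sg (s z) = _
    rw [(hfix z).2 hz, hsga]
  have hNn : ∀ z, P z = 0 → Nn U z = (-2 : ℝ) • (R z - P (R z)) := by
    intro z hz
    rw [Nn_apply]
    have : Co U z = (1 / 2 : ℝ) • (U z + U⁻¹ z) := rfl
    rw [this, hUa z hz, hUia z hz]
    module
  obtain ⟨η0, hη0, hη'⟩ := hspec U s y0 (ContinuousLinearMap.id ℝ E) hsU ((hfix y0).2 hy)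
    (fun z => le_rfl) (by
    intro z hz1 hz2
    have hz3 := (hfix z).1 hz1
    have h1 : Co U z = (1 / 2 : ℝ) • (U z + U⁻¹ z) := rfl
    have h2 : U z + U⁻¹ z = (2:ℝ) • z := by
      rw [h1] at hz2
      have := congrArg (fun v => (2:ℝ) • v) hz2
      simp only [smul_smul] at this
      norm_num at this
      exact this
    have h3 : U (U z) = (2:ℝ) • U z - z := by
      have h4 : U (U⁻¹ z) = z := U.apply_symm_apply z
      have h5 := congrArg U h2
      rw [map_add, h4, map_smul] at h5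
      rw [← h5]; abel
    have h4 := unip_vec U z h3
    have h5 : U⁻¹ z = z := by
      have : U.symm (U z) = z := U.symm_apply_apply z
      rw [h4] at this
      exact this
    rw [hUia z hz3] at h5
    have h6 := sub_eq_self.1 h5
    exact hker z hz3 ((smul_eq_zero.1 h6).resolve_left (by norm_num))) (by
    rw [hNn y0 hy, norm_smul]
    have h3 : ‖(-2:ℝ)‖ = 2 := by norm_num
    rw [h3]
    show K0 * (2 * ‖R y0 - P (R y0)‖) < ‖y0‖
    rw [hy0]
    have h4 : K0 * (2 * ‖R y0 - P (R y0)‖) = 2 * K0 * ‖R y0 - P (R y0)‖ := by ring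
    rw [h4]
    exact hK1)
  -- the parameters
  set η : ℝ := min η0 1 with hη
  have hηpos : 0 < η := lt_min hη0 one_pos
  have hη1 : η ≤ 1 := min_le_right _ _
  have hηη0 : η ≤ η0 := min_le_left _ _
  set σ : ℝ := Real.sqrt η with hσ
  have hσpos : 0 < σ := Real.sqrt_pos.2 hηpos
  have hσ1 : σ ≤ 1 := Real.sqrt_le_one.2 hη1
  have hσ2 : σ ^ 2 = η := Real.sq_sqrt hηpos.le
  set ε : ℝ := c * σ * η / 16 with hε
  have hεpos : 0 < ε := by positivity
  have hεη : ε ≤ η / 2 := by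
    have h1 : c * σ ≤ 1 := mul_le_one₀ (by linarith) hσpos.le hσ1
    have h2 : c * σ * η ≤ 1 * η := mul_le_mul_of_nonneg_right h1 hηpos.le
    rw [hε]
    linarith
  obtain ⟨z, hz0, hsz, μ, hμ1, hμ2, hz⟩ := hη' ε hεpos
  have hPz := (hfix z).1 hsz
  have hzn : 0 < ‖z‖ := norm_pos_iff.2 hz0
  obtain ⟨x, hx1, hPx, hxe⟩ : ∃ x : E, ‖x‖ = 1 ∧ P x = 0 ∧
      ‖(1 / 2 : ℝ) • (U x + U.symm x) - (1 - μ) • x‖ ≤ ε := by
    refine ⟨‖z‖⁻¹ • z, ?_, ?_, ?_⟩
    · rw [norm_smul, norm_inv, norm_norm, inv_mul_cancel₀ hzn.ne']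
    · rw [map_smul, hPz, smul_zero]
    · have h1 : (1 / 2 : ℝ) • (U (‖z‖⁻¹ • z) + U.symm (‖z‖⁻¹ • z)) - (1 - μ) • (‖z‖⁻¹ • z) =
          ‖z‖⁻¹ • (Nn U z + μ • z) := by
        have h2 : Nn U z = (1 / 2 : ℝ) • (U z + U.symm z) - z := by
          rw [Nn_apply]; rfl
        rw [h2, map_smul, map_smul]
        module
      rw [h1, norm_smul, norm_inv, norm_norm, inv_mul_le_iff₀ hzn, mul_comm]
      exact hz
  have hμη : η ≤ μ := hηη0.trans hμ1
  set A : ℝ := 1 - μ with hA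
  have hAcos : Real.cos c ≤ A := by linarith
  have hA0 : 0 < A := hcosc.trans_le hAcos
  have hA1 : A < 1 := by linarith
  set v' : E := (1 / 2 : ℝ) • (U x - U.symm x) with hv'
  have hUv' := eig U x A ε (by rw [abs_of_pos hA0]; exact hA1.le) hxe
  rw [← hv'] at hUv'
  have hPv' : P v' = v' := by
    have h1 : v' = (2:ℝ) • P (R x) := by
      have e1 : U.symm x = x - (2:ℝ) • R x := hUia x hPx
      rw [hv', e1, hUa x hPx]
      module
    rw [h1, map_smul, hP]
  have hUx : U x = A • x + v' + ((1 / 2 : ℝ) • (U x + U.symm x) - A • x) := by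
    rw [hv']; module
  set ρ : ℝ := ‖v'‖ with hρ
  have hρ1 : η / 2 ≤ ρ := by
    have h1 : ‖U x‖ ≤ ‖A • x‖ + ‖v'‖ + ‖(1 / 2 : ℝ) • (U x + U.symm x) - A • x‖ := by
      nth_rewrite 1 [hUx]
      exact norm_add₃_le
    rw [U.norm_map, hx1, norm_smul, hx1, Real.norm_of_nonneg hA0.le, mul_one] at h1
    linarith
  have hρpos : 0 < ρ := by linarith
  obtain ⟨v, hv1, hPv, hvv⟩ : ∃ v : E, ‖v‖ = 1 ∧ P v = v ∧ v' = ρ • v := by
    refine ⟨ρ⁻¹ • v', ?_, ?_, ?_⟩
    · rw [norm_smul, norm_inv, hρ, norm_norm, inv_mul_cancel₀ hρpos.ne']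
    · rw [map_smul, hPv']
    · rw [smul_smul, mul_inv_cancel₀ hρpos.ne', one_smul]
  -- the angle
  set θ : ℝ := Real.arccos A with hθ
  have hθ0 : 0 < θ := Real.arccos_pos.2 hA1
  have hcosθ : Real.cos θ = A := Real.cos_arccos (by linarith) hA1.le
  have hθc : θ ≤ c := by
    have h1 : Real.arccos A ≤ Real.arccos (Real.cos c) := Real.arccos_le_arccos hAcos
    rwa [Real.arccos_cos hc0.le (by linarith)] at h1
  have hsin : 0 < Real.sin θ := Real.sin_pos_of_pos_of_lt_pi hθ0 (by linarith)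
  have hsin2 : Real.sin θ ^ 2 = 1 - A ^ 2 := by
    have := Real.sin_sq_add_cos_sq θ
    rw [hcosθ] at this
    linarith
  have hsinσ : σ ≤ Real.sin θ := by
    have h1 : σ ^ 2 ≤ Real.sin θ ^ 2 := by
      rw [hsin2, hσ2]
      have : 1 - A ^ 2 = μ * (1 + A) := by rw [hA]; ring
      rw [this]
      nlinarith
    exact (sq_le_sq₀ hσpos.le hsin.le).1 h1
  have hθσ : σ ≤ θ := hsinσ.trans (Real.sin_le hθ0.le)
  set K : ℝ := ρ / Real.sin θ with hK
  have hKpos : 0 < K := by positivity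
  have hKs : K * Real.sin θ = ρ := by rw [hK, div_mul_cancel₀ _ hsin.ne']
  have hsK : Real.sin θ / K = (1 - A ^ 2) / ρ := by
    rw [hK, ← hsin2]
    field_simp
  have hI1 : ‖U x - (Real.cos θ • x + (K * Real.sin θ) • v)‖ ≤ ε := by
    rw [hcosθ, hKs, ← hvv]
    have : U x - (A • x + v') = (1 / 2 : ℝ) • (U x + U.symm x) - A • x := by
      nth_rewrite 1 [hUx]; abel
    rw [this]
    exact hxe
  have hI2 : ‖U v - (-(Real.sin θ / K) • x + Real.cos θ • v)‖ ≤ 3 * ε / ρ := by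
    rw [hcosθ, hsK]
    have h1 : U v - (-((1 - A ^ 2) / ρ) • x + A • v) =
        ρ⁻¹ • (U v' - (-(1 - A ^ 2) • x + A • v')) := by
      rw [hvv, map_smul, smul_sub, smul_smul, smul_add, smul_smul, smul_smul, smul_smul,
        inv_mul_cancel₀ hρpos.ne', one_smul]
      have e1 : ρ⁻¹ * -(1 - A ^ 2) = -((1 - A ^ 2) / ρ) := by ring
      have e2 : ρ⁻¹ * A * ρ = A := by field_simp
      rw [e1, e2]
    rw [h1, norm_smul, norm_inv, Real.norm_of_nonneg hρpos.le, inv_mul_le_iff₀ hρpos]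
    have e3 : ρ * (3 * ε / ρ) = 3 * ε := by field_simp
    rw [e3]
    exact hUv'
  have hit := iter U x v θ K ε (3 * ε / ρ) hKpos hI1 hI2
  -- the errors
  have hkb : ∀ k : ℕ, k * θ ≤ Real.pi / 2 →
      k * (ε + K * (3 * ε / ρ)) ≤ c ∧ k * (ε / K + 3 * ε / ρ) ≤ c := by
    intro k hk
    exact errs hc0 hσpos hσ1 hηpos hσ2 hρ1 hsinσ (Real.sin_le_one θ) hθσ k (by linarith)
  -- the norm of the plane
  set n : ℝ → ℝ → ℝ := fun p q => ‖p • x + q • v‖ with hndef
  have hPpq : ∀ p q : ℝ, P (p • x + q • v) = q • v := by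
    intro p q
    rw [map_add, map_smul, map_smul, hPx, hPv, smul_zero, zero_add]
  have hP'pq : ∀ p q : ℝ, (p • x + q • v) - P (p • x + q • v) = p • x := by
    intro p q
    rw [hPpq, add_sub_cancel_right]
  have hn : AbsNorm n := by
    refine ⟨?_, ?_, ?_, ?_, ?_, ?_, ?_⟩
    · intro p q p' q'
      show ‖(p + p') • x + (q + q') • v‖ ≤ ‖p • x + q • v‖ + ‖p' • x + q' • v‖
      have : (p + p') • x + (q + q') • v = (p • x + q • v) + (p' • x + q' • v) := by module
      rw [this]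
      exact norm_add_le _ _
    · intro t p q
      show ‖(t * p) • x + (t * q) • v‖ = |t| * ‖p • x + q • v‖
      rw [← Real.norm_eq_abs, ← norm_smul]
      congr 1
      module
    · intro p q
      have := hP2 (p • x + q • v)
      rwa [hP'pq, norm_smul, hx1, mul_one, Real.norm_eq_abs] at this
    · intro p q
      have := hP1 (p • x + q • v)
      rwa [hPpq, norm_smul, hv1, mul_one, Real.norm_eq_abs] at this
    · intro p
      show ‖p • x + (0:ℝ) • v‖ = |p|
      rw [zero_smul, add_zero, norm_smul, hx1, mul_one, Real.norm_eq_abs]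
    · intro q
      show ‖(0:ℝ) • x + q • v‖ = |q|
      rw [zero_smul, zero_add, norm_smul, hv1, mul_one, Real.norm_eq_abs]
    · intro p q
      show ‖p • x + (-q) • v‖ = ‖p • x + q • v‖
      rw [← hs (p • x + q • v), hPpq]
      congr 1
      module
  have hbd : ∀ k : ℕ, k * θ ≤ Real.pi / 2 →
      |n (Real.cos (k * θ)) (K * Real.sin (k * θ)) - 1| ≤ c := by
    intro k hk
    have h1 := (hit k).1.trans (hkb k hk).1
    have h2 : ‖(U ^ k) x‖ = 1 := by rw [(U ^ k).norm_map, hx1]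
    have h3 := abs_norm_sub_norm_le (Real.cos (k * θ) • x + (K * Real.sin (k * θ)) • v) ((U ^ k) x)
    rw [h2, norm_sub_rev] at h3
    exact h3.trans h1
  obtain ⟨hK1, heu⟩ := hn.near_euclid hc1 hθ0 hθc hKpos hbd
  -- the rotation
  have g1 := Nat.floor_le (div_nonneg (by positivity : 0 ≤ Real.pi / 4) hθ0.le)
  have g2 := Nat.lt_floor_add_one (Real.pi / 4 / θ)
  rw [le_div_iff₀ hθ0] at g1
  rw [div_lt_iff₀ hθ0] at g2
  set k : ℕ := ⌊Real.pi / 4 / θ⌋₊ with hkdef
  have gk : |Real.pi / 4 - k * θ| ≤ c := by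
    rw [abs_le]
    constructor <;> nlinarith
  have hk2 : k * θ ≤ Real.pi / 2 := by linarith
  have hκ : Real.sqrt (1 / 2) = Real.cos (Real.pi / 4) := by
    rw [Real.cos_pi_div_four, one_div, Real.sqrt_inv]
    have : Real.sqrt 2 ≠ 0 := by positivity
    field_simp
    rw [Real.sq_sqrt (by norm_num)]
  have hκ' : Real.sqrt (1 / 2) = Real.sin (Real.pi / 4) := by
    rw [hκ, Real.cos_pi_div_four, Real.sin_pi_div_four]
  set κ : ℝ := Real.sqrt (1 / 2) with hκdef
  have c1 : |Real.cos (k * θ) - κ| ≤ c := by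
    rw [hκ, abs_sub_comm]
    exact (Real.abs_cos_sub_cos_le _ _).trans gk
  have s1 : |Real.sin (k * θ) - κ| ≤ c := by
    rw [hκ', abs_sub_comm]
    exact (Real.abs_sin_sub_sin_le _ _).trans gk
  have hK2 := abs_le.1 hK1
  have hK34 : 3 / 4 ≤ K := by linarith
  have s2 : |K * Real.sin (k * θ) - κ| ≤ 5 * c := by
    have e : K * Real.sin (k * θ) - κ = (K - 1) * Real.sin (k * θ) + (Real.sin (k * θ) - κ) := by
      ring
    rw [e]
    refine (abs_add_le _ _).trans ?_
    rw [abs_mul]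
    have : |K - 1| * |Real.sin (k * θ)| ≤ 4 * c * 1 :=
      mul_le_mul hK1 (Real.abs_sin_le_one _) (abs_nonneg _) (by linarith)
    linarith
  have s3 : |Real.sin (k * θ) / K - κ| ≤ 7 * c := by
    have e : Real.sin (k * θ) / K - κ =
        (1 - K) / K * Real.sin (k * θ) + (Real.sin (k * θ) - κ) := by
      field_simp
      ring
    rw [e]
    refine (abs_add_le _ _).trans ?_
    rw [abs_mul, abs_div, abs_of_pos hKpos, abs_sub_comm 1 K]
    have h1 : |K - 1| / K ≤ 6 * c := by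
      rw [div_le_iff₀ hKpos]
      nlinarith
    have : |K - 1| / K * |Real.sin (k * θ)| ≤ 6 * c * 1 :=
      mul_le_mul h1 (Real.abs_sin_le_one _) (abs_nonneg _) (by linarith)
    linarith
  refine ⟨x, v, U ^ k, hPx, hx1, hPv, hv1, ?_, ?_, ?_⟩
  · have h1 := (hit k).1.trans (hkb k hk2).1
    have e : (U ^ k) x - κ • (x + v) =
        ((U ^ k) x - (Real.cos (k * θ) • x + (K * Real.sin (k * θ)) • v)) +
        (Real.cos (k * θ) - κ) • x + (K * Real.sin (k * θ) - κ) • v := by module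
    rw [e]
    refine norm_add₃_le.trans ?_
    rw [norm_smul, norm_smul, hx1, hv1, Real.norm_eq_abs, Real.norm_eq_abs, mul_one, mul_one]
    linarith
  · have h1 := (hit k).2.trans (hkb k hk2).2
    have e : (U ^ k) v - κ • (v - x) =
        ((U ^ k) v - (-(Real.sin (k * θ) / K) • x + Real.cos (k * θ) • v)) +
        (-(Real.sin (k * θ) / K - κ)) • x + (Real.cos (k * θ) - κ) • v := by module
    rw [e]
    refine norm_add₃_le.trans ?_
    rw [norm_smul, norm_smul, hx1, hv1, Real.norm_eq_abs, Real.norm_eq_abs, mul_one, mul_one,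
      abs_neg]
    linarith
  · intro p q
    refine (heu p q).trans ?_
    refine mul_le_mul_of_nonneg_right ?_ (Real.sqrt_nonneg _)
    linarith


end Pool.Agent.U234.KM
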