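import Pool.Agent.U234.KM.Semi
import Pool.Agent.U234.KM.Star
import Pool.Agent.U234.KM.Par
import Pool.Agent.H755R2.MT.Slice
import Pool.Agent.Results.MP_cc72b1_an.IsotropicSummand

/-!
# Transitive norms with property (M)
-/

set_option autoImplicit false
set_option linter.unusedSectionVars false

namespace Pool.Agent.U234.KM

open Filter Topology

section KK

variable {E : Type*} [NormedAddCommGroup E] [NormedSpace ℝ E]

/-- reflexivity gives norm attainment -/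
lemma attains (hr : Function.Surjective (NormedSpace.inclusionInDoubleDual ℝ E))
    (f : StrongDual ℝ E) : ∃ z : E, ‖z‖ ≤ 1 ∧ f z = ‖f‖ := by
  rcases eq_or_ne f 0 with rfl | hf
  · exact ⟨0, by simp, by simp⟩
  obtain ⟨F, hF1, hF2⟩ := exists_dual_vector ℝ f (norm_ne_zero_iff.2 hf)
  obtain ⟨z, hz⟩ := hr F
  refine ⟨z, ?_, ?_⟩
  · have h1 : ‖NormedSpace.inclusionInDoubleDual ℝ E z‖ = ‖z‖ :=
      (NormedSpace.inclusionInDoubleDualLi ℝ).norm_map z
    rw [← h1, hz, hF1]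
  · have h1 : NormedSpace.inclusionInDoubleDual ℝ E z f = f z := NormedSpace.dual_def ℝ E z f
    rw [← h1, hz, hF2]
    simp

/-- **the Kadec-Klee property** of transitive norms on separable reflexive spaces -/
lemma kk [CompleteSpace E] [TopologicalSpace.SeparableSpace E]
    (hr : Function.Surjective (NormedSpace.inclusionInDoubleDual ℝ E))
    (htr : ∀ x y : E, ‖x‖ = 1 → ‖y‖ = 1 → ∃ T : E ≃ₗᵢ[ℝ] E, T x = y)
    {ι : Type*} (V : Ultrafilter ι) (u : ι → E) (b : E) (hu : ∀ i, ‖u i‖ ≤ ‖b‖)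
    (hlim : ∀ f : StrongDual ℝ E, Tendsto (fun i => f (u i)) V (𝓝 (f b))) :
    Tendsto (fun i => ‖u i - b‖) V (𝓝 0) := by
  rcases eq_or_ne b 0 with rfl | hb
  · refine tendsto_const_nhds.congr fun i => ?_
    have : u i = 0 := norm_le_zero_iff.1 (by simpa using hu i)
    rw [this, sub_zero, norm_zero]
  have hbn : 0 < ‖b‖ := norm_pos_iff.2 hb
  rw [Metric.tendsto_nhds]
  intro ε hε
  have hne : ∃ f : StrongDual ℝ E, f ≠ 0 := by
    obtain ⟨f, hf, -⟩ := exists_dual_vector ℝ b (norm_ne_zero_iff.2 hb)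
    refine ⟨f, fun h => ?_⟩
    rw [h, norm_zero] at hf
    exact zero_ne_one hf
  obtain ⟨f, x, δ, hf, hx, hfx, hδ, hsl⟩ := Pool.H755R2.MT.exists_slice (attains hr) hne
    (ε := ε / (2 * ‖b‖)) (by positivity)
  have hb1 : ‖‖b‖⁻¹ • b‖ = 1 := by
    rw [norm_smul, norm_inv, norm_norm, inv_mul_cancel₀ hbn.ne']
  obtain ⟨T, hT⟩ := htr x (‖b‖⁻¹ • b) hx hb1
  -- the functional
  set g : StrongDual ℝ E := f.comp (T.symm.toContinuousLinearEquiv : E →L[ℝ] E) with hg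
  have hga : ∀ z, g z = f (T.symm z) := fun z => rfl
  have hgb : g b = ‖b‖ := by
    have h1 : b = ‖b‖ • T x := by
      rw [hT, smul_smul, mul_inv_cancel₀ hbn.ne', one_smul]
    rw [h1, map_smul, hga, T.symm_apply_apply, hfx, norm_smul, norm_norm, T.norm_map, hx,
      smul_eq_mul]
  have h1 := (hlim g).eventually (lt_mem_nhds (by
    rw [hgb]; nlinarith : (1 - δ) * ‖b‖ < g b))
  filter_upwards [h1] with i hi
  rw [Real.dist_eq, sub_zero, abs_of_nonneg (norm_nonneg _)]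
  have h2 := hsl (‖b‖⁻¹ • T.symm (u i)) (by
    rw [norm_smul, norm_inv, norm_norm, T.symm.norm_map, inv_mul_le_iff₀ hbn, mul_one]
    exact hu i) (by
    rw [map_smul, smul_eq_mul, ← hga, inv_mul_eq_div, lt_div_iff₀ hbn]
    exact hi)
  have h3 : u i - b = ‖b‖ • T (‖b‖⁻¹ • T.symm (u i) - x) := by
    rw [map_sub, map_smul, T.apply_symm_apply, smul_sub, smul_smul, mul_inv_cancel₀ hbn.ne',
      one_smul, hT, smul_smul, mul_inv_cancel₀ hbn.ne', one_smul]
  rw [h3, norm_smul, norm_norm, T.norm_map]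
  calc ‖b‖ * ‖‖b‖⁻¹ • T.symm (u i) - x‖ ≤ ‖b‖ * (ε / (2 * ‖b‖)) := by gcongr
    _ = ε / 2 := by field_simp
    _ < ε := by linarith

/-- rigidity of the ultrapower -/
lemma kk_X [CompleteSpace E] [TopologicalSpace.SeparableSpace E]
    (hr : Function.Surjective (NormedSpace.inclusionInDoubleDual ℝ E))
    (hU : N314.OP.UW E)
    (htr : ∀ x y : E, ‖x‖ = 1 → ‖y‖ = 1 → ∃ T : E ≃ₗᵢ[ℝ] E, T x = y)
    (T : ℕ → E ≃ₗᵢ[ℝ] E) (x : E) (h : ‖Lm hU (TX T (io x))‖ = ‖x‖) :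
    PX hU (TX T (io x)) = 0 := by
  have e1 : TX T (io x) = cl (TB T (mkB (fun _ => x) ‖x‖ fun _ => le_rfl)) := by
    rw [io_apply, TX_cl]
  set F := TB T (mkB (fun _ => x) ‖x‖ fun _ => le_rfl) with hF
  rw [e1] at h ⊢
  rw [PX_zero_iff, io_apply, cl_eq]
  have h1 := kk hr htr (hyperfilter ℕ) (fun n => F n) (Lm hU (cl F)) (fun n => by
    rw [h, hF, TB_apply, mkB_apply, (T n).norm_map]) (fun f => wl_spec hU F f)
  exact h1

end KK

section main

variable {E : Type} [NormedAddCommGroup E] [NormedSpace ℝ E] [CompleteSpace E]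
  [TopologicalSpace.SeparableSpace E]

/-- almost rotations by `π / 4` in the ultrapower -/
def Good (hU : N314.OP.UW E) (δ : ℝ) : Prop :=
  ∃ (w v : X E) (V : X E ≃ₗᵢ[ℝ] X E), PX hU w = 0 ∧ ‖w‖ = 1 ∧ PX hU v = v ∧ ‖v‖ = 1 ∧
    ‖V w - Real.sqrt (1 / 2) • (w + v)‖ ≤ δ ∧ ‖V v - Real.sqrt (1 / 2) • (v - w)‖ ≤ δ ∧
    ∀ p q : ℝ, |‖p • w + q • v‖ - Real.sqrt (p ^ 2 + q ^ 2)| ≤ δ * Real.sqrt (p ^ 2 + q ^ 2)

/-- the first case -/
theorem par_of_good (hU : N314.OP.UW E) (hM : PM E) (hW : N314.OP.WSC E) (hS : N314.OP.Sep E)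
    (htr : ∀ x y : E, ‖x‖ = 1 → ‖y‖ = 1 → ∃ T : E ≃ₗᵢ[ℝ] E, T x = y)
    (hg : ∀ δ : ℝ, 0 < δ → Good hU δ) (x y : E) :
    ‖x + y‖ * ‖x + y‖ + ‖x - y‖ * ‖x - y‖ = 2 * (‖x‖ * ‖x‖ + ‖y‖ * ‖y‖) := by
  rcases eq_or_ne y 0 with rfl | hy
  · simp; ring
  set a : ℝ := ‖y‖ with ha
  have ha0 : 0 < a := norm_pos_iff.2 hy
  set e : E := a⁻¹ • y with he
  have he1 : ‖e‖ = 1 := by
    rw [he, norm_smul, norm_inv, ha, norm_norm, inv_mul_cancel₀ ha0.ne']
  have hye : y = a • e := by rw [he, smul_smul, mul_inv_cancel₀ ha0.ne', one_smul]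
  set ρ : ℝ := ‖x‖ + a with hρ
  have hρ0 : 0 < ρ := by have := norm_nonneg x; linarith
  have hPP := PX_PX hU
  have hiso : ∀ ξ η : X E, PX hU ξ = PX hU η → ‖ξ - PX hU ξ‖ = ‖η - PX hU η‖ → ‖ξ‖ = ‖η‖ := by
    intro ξ η h1 h2
    rw [PX_apply, PX_apply, sub_sub_cancel, sub_sub_cancel, LinearIsometry.norm_map,
      LinearIsometry.norm_map] at h2
    exact iso hU hM hW hS h1 h2
  have key : ∀ δ : ℝ, 0 < δ → δ ≤ 1 →
      |‖x + y‖ ^ 2 + ‖x - y‖ ^ 2 - 2 * ‖x‖ ^ 2 - 2 * a ^ 2| ≤ 3200 * ρ ^ 2 * δ := by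
    intro δ hδ hδ1
    obtain ⟨w, v, V, h1, h2, h3, h4, h5, h6, h7⟩ := hg δ hδ
    have hw : w = io (Lm hU w) := (PX_zero_iff hU w).1 h1
    set ω : E := Lm hU w with hω
    have hω1 : ‖ω‖ = 1 := by
      have := (io (E := E)).norm_map ω
      rw [← hw, h2] at this
      exact this.symm
    obtain ⟨T, hT⟩ := htr ω e hω1 he1
    have h8 := par_approx (PX hU) hPP (PX_le' hU) hiso hρ0 hδ hδ1 w v V h1 h2 h3 h5 h6 h7
      (io (T.symm x)) (PX_io hU _) (by
        rw [LinearIsometry.norm_map, T.symm.norm_map, hρ]; linarith) a ha0.le (by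
        have := norm_nonneg x; linarith)
    rw [hw, ← map_smul, ← map_add, ← map_sub, LinearIsometry.norm_map, LinearIsometry.norm_map,
      LinearIsometry.norm_map, T.symm.norm_map] at h8
    have e1 : ‖T.symm x + a • ω‖ = ‖x + y‖ := by
      rw [← T.norm_map, map_add, T.apply_symm_apply, map_smul, hT, ← hye]
    have e2 : ‖T.symm x - a • ω‖ = ‖x - y‖ := by
      rw [← T.norm_map, map_sub, T.apply_symm_apply, map_smul, hT, ← hye]
    rw [e1, e2] at h8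
    exact h8
  have h0 : |‖x + y‖ ^ 2 + ‖x - y‖ ^ 2 - 2 * ‖x‖ ^ 2 - 2 * a ^ 2| ≤ 0 := by
    refine le_of_forall_pos_le_add fun ε hε => ?_
    have hC : 0 < 3200 * ρ ^ 2 := by positivity
    have h1 := key (min 1 (ε / (3200 * ρ ^ 2))) (by positivity) (min_le_left _ _)
    have h2 : 3200 * ρ ^ 2 * min 1 (ε / (3200 * ρ ^ 2)) ≤ ε := by
      calc 3200 * ρ ^ 2 * min 1 (ε / (3200 * ρ ^ 2)) ≤ 3200 * ρ ^ 2 * (ε / (3200 * ρ ^ 2)) := by
            gcongr
            exact min_le_right _ _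
        _ = ε := by field_simp
    linarith
  have h1 := abs_eq_zero.1 (le_antisymm h0 (abs_nonneg _))
  nlinarith [h1]

/-- the second case: a nontrivial idempotent -/
theorem hilbert_of_idem
    (hr : Function.Surjective (NormedSpace.inclusionInDoubleDual ℝ E)) (hM : PM E)
    (hW : N314.OP.WSC E) (hS : N314.OP.Sep E)
    (htr : ∀ x y : E, ‖x‖ = 1 → ‖y‖ = 1 → ∃ T : E ≃ₗᵢ[ℝ] E, T x = y)
    {Q : Function.End E} (hQ : Q ∈ Gb E)
    (hQQ : ∀ z, (Q : E → E) ((Q : E → E) z) = (Q : E → E) z) {x y1 : E}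
    (h1 : (Q : E → E) x ≠ x) (h2 : (Q : E → E) y1 = y1) (h3 : y1 ≠ 0) :
    ∃ (H : Type) (instH : NormedAddCommGroup H) (instI : InnerProductSpace ℝ H)
        (instC : CompleteSpace H), Nonempty (E ≃ₗᵢ[ℝ] H) := by
  obtain ⟨V, hV⟩ := Gb_ultra hQ
  let q : E →ₗ[ℝ] E :=
    { toFun := (Q : E → E)
      map_add' := Gb_add hQ
      map_smul' := Gb_smul hQ }
  have hqa : ∀ z, q z = (Q : E → E) z := fun z => rfl
  have hqq : ∀ z, q (q z) = q z := hQQ
  have hVq : ∀ (y : E) (f : StrongDual ℝ E),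
      Tendsto (fun T : E ≃ₗᵢ[ℝ] E => f (T y)) V (𝓝 (f (q y))) := hV
  -- isotropy
  have hlim : ∀ v e : E, q v = v →
      Tendsto (fun T : E ≃ₗᵢ[ℝ] E => ‖v + T e‖) V (𝓝 ‖v + e‖) := by
    intro v e hv
    have k1 : Tendsto (fun T : E ≃ₗᵢ[ℝ] E => ‖T v - v‖) V (𝓝 0) := by
      refine kk hr htr V (fun T => T v) v (fun T => (T.norm_map v).le) fun f => ?_
      have := hVq v f
      rwa [hv] at this
    rw [tendsto_iff_dist_tendsto_zero]
    refine squeeze_zero (fun _ => dist_nonneg) (fun T => ?_) k1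
    rw [Real.dist_eq, ← T.norm_map (v + e), map_add]
    refine (abs_norm_sub_norm_le _ _).trans (le_of_eq ?_)
    rw [← norm_neg]
    congr 1
    abel
  have hiso : ∀ v v' e : E, q v = v → q v' = v' → q e = 0 → ‖v‖ = ‖v'‖ → ‖v + e‖ = ‖v' + e‖ := by
    intro v v' e hv hv' he hn
    have k1 := pm_ultra hM hW hS V (fun T : E ≃ₗᵢ[ℝ] E => T e) ‖e‖ (fun T => (T.norm_map e).le)
      (fun f => by
        have := hVq e f
        rwa [he, map_zero] at this) hn
    have k2 := tendsto_nhds_unique k1 ((hlim v e hv).sub (hlim v' e hv'))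
    linarith
  refine Pool.Agent.Results.MP_cc72b1_an.IsotropicSummand.result E (LinearMap.id - q) htr ?_ ?_ ?_ ?_
  · intro z
    simp only [LinearMap.sub_apply, LinearMap.id_apply, map_sub, hqq]
    abel
  · refine ⟨x, fun h => h1 ?_⟩
    simp only [LinearMap.sub_apply, LinearMap.id_apply] at h
    exact (sub_eq_zero.1 h).symm
  · refine ⟨y1, fun h => h3 ?_⟩
    simp only [LinearMap.sub_apply, LinearMap.id_apply] at h
    rw [hqa, h2, sub_self] at h
    exact h.symm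
  · intro a b hab hn
    simp only [LinearMap.sub_apply, LinearMap.id_apply, sub_sub_cancel] at hab hn
    have ea : a = q a + (a - q a) := by abel
    have eb : b = q b + (a - q a) := by rw [hab]; abel
    rw [ea, eb]
    have hz : q (a - q a) = 0 := by rw [map_sub, hqq, sub_self]
    have := hiso (q a) (q b) (a - q a) (hqq a) (hqq b) hz hn
    calc ‖q a + (a - q a)‖ = ‖q b + (a - q a)‖ := this
      _ = _ := rfl

end main

end Pool.Agent.U234.KM
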