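import Pool.Agent.U234.KM.Ultra

/-!
# Property (M) along ultrafilters and in the ultrapower
-/

set_option autoImplicit false
set_option linter.unusedSectionVars false

namespace Pool.Agent.U234.KM

open Filter Topology

/-- Kalton's property (M) -/
def PM (E : Type*) [NormedAddCommGroup E] [NormedSpace ℝ E] : Prop :=
  ∀ u : ℕ → E, (∀ f : StrongDual ℝ E, Tendsto (fun n => f (u n)) atTop (𝓝 0)) →
    ∀ x y : E, ‖x‖ = ‖y‖ → Tendsto (fun n => ‖x + u n‖ - ‖y + u n‖) atTop (𝓝 0)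

variable {E : Type*} [NormedAddCommGroup E] [NormedSpace ℝ E]

/-- weak limits along ultrafilters on arbitrary sets -/
lemma uw_gen (hr : Function.Surjective (NormedSpace.inclusionInDoubleDual ℝ E)) {ι : Type*}
    (V : Ultrafilter ι) (u : ι → E) (C : ℝ) (hC : ∀ i, ‖u i‖ ≤ C) :
    ∃ b : E, ∀ f : StrongDual ℝ E, Tendsto (fun i => f (u i)) V (𝓝 (f b)) := by
  have hb : ∀ (f : StrongDual ℝ E) (i : ι), |f (u i)| ≤ C * ‖f‖ := by
    intro f i
    calc |f (u i)| = ‖f (u i)‖ := rfl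
      _ ≤ ‖f‖ * ‖u i‖ := f.le_opNorm _
      _ ≤ ‖f‖ * C := by gcongr; exact hC i
      _ = C * ‖f‖ := mul_comm _ _
  have hex : ∀ f : StrongDual ℝ E, ∃ L, |L| ≤ C * ‖f‖ ∧ Tendsto (fun i => f (u i)) V (𝓝 L) := by
    intro f
    have h1 : ((V.map fun i => f (u i) : Ultrafilter ℝ) : Filter ℝ) ≤
        𝓟 (Set.Icc (-(C * ‖f‖)) (C * ‖f‖)) := by
      rw [Ultrafilter.coe_map, le_principal_iff, mem_map]
      exact univ_mem' fun i => ⟨(abs_le.1 (hb f i)).1, (abs_le.1 (hb f i)).2⟩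
    obtain ⟨L, hL, h2⟩ := isCompact_Icc.ultrafilter_le_nhds _ h1
    exact ⟨L, abs_le.2 ⟨hL.1, hL.2⟩, h2⟩
  choose L hL1 hL2 using hex
  let L' : StrongDual ℝ E →ₗ[ℝ] ℝ :=
    { toFun := L
      map_add' := by
        intro f g
        refine tendsto_nhds_unique (hL2 (f + g)) ?_
        exact (hL2 f).add (hL2 g)
      map_smul' := by
        intro c f
        refine tendsto_nhds_unique (hL2 (c • f)) ?_
        exact (hL2 f).const_mul c }
  obtain ⟨b, hb⟩ := hr (L'.mkContinuous C fun f => hL1 f)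
  refine ⟨b, fun f => ?_⟩
  have h1 : f b = L f := by
    have h2 := DFunLike.congr_fun hb f
    rw [NormedSpace.dual_def] at h2
    rw [h2]
    rfl
  rw [h1]
  exact hL2 f

/-- weakly null sequences are recognised by a separating sequence of functionals -/
lemma wn_of_sep (hW : N314.OP.WSC E) {g : ℕ → StrongDual ℝ E}
    (hg : ∀ a : E, (∀ k, g k a = 0) → a = 0) {u : ℕ → E} {C : ℝ} (hC : ∀ n, ‖u n‖ ≤ C)
    (h : ∀ k, Tendsto (fun n => g k (u n)) atTop (𝓝 0)) (f : StrongDual ℝ E) :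
    Tendsto (fun n => f (u n)) atTop (𝓝 0) := by
  apply tendsto_of_subseq_tendsto
  intro ns hns
  obtain ⟨a, φ, hφ, hlim⟩ := hW (fun n => u (ns n)) C fun n => hC _
  have ha : a = 0 := by
    apply hg
    intro k
    exact tendsto_nhds_unique (hlim (g k)) (((h k).comp hns).comp hφ.tendsto_atTop)
  refine ⟨φ, ?_⟩
  have := hlim f
  rwa [ha, map_zero] at this

/-- property (M) along ultrafilters -/
lemma pm_ultra (hM : PM E) (hW : N314.OP.WSC E) (hS : N314.OP.Sep E) {ι : Type*}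
    (V : Ultrafilter ι) (u : ι → E) (C : ℝ) (hC : ∀ i, ‖u i‖ ≤ C)
    (h0 : ∀ f : StrongDual ℝ E, Tendsto (fun i => f (u i)) V (𝓝 0)) {x y : E} (hxy : ‖x‖ = ‖y‖) :
    Tendsto (fun i => ‖x + u i‖ - ‖y + u i‖) V (𝓝 0) := by
  obtain ⟨g, hg⟩ := hS
  by_contra hcon
  rw [Metric.tendsto_nhds] at hcon
  push Not at hcon
  obtain ⟨ε, hε, hfr⟩ := hcon
  have hev : ∀ᶠ i in (V : Filter ι), ε ≤ dist (‖x + u i‖ - ‖y + u i‖) 0 := hfr
  have hk : ∀ k : ℕ, ∃ i, ε ≤ dist (‖x + u i‖ - ‖y + u i‖) 0 ∧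
      ∀ j ∈ Finset.range (k + 1), |g j (u i)| < 1 / ((k : ℝ) + 1) := by
    intro k
    have h1 : ∀ᶠ i in (V : Filter ι), ∀ j ∈ Finset.range (k + 1),
        |g j (u i)| < 1 / ((k : ℝ) + 1) := by
      rw [Filter.eventually_all_finset]
      intro j _
      have := (Metric.tendsto_nhds.1 (h0 (g j))) (1 / ((k : ℝ) + 1)) (by positivity)
      filter_upwards [this] with i hi
      rwa [Real.dist_eq, sub_zero] at hi
    exact (hev.and h1).exists
  choose s hs1 hs2 using hk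
  have hv : ∀ f : StrongDual ℝ E, Tendsto (fun k => f (u (s k))) atTop (𝓝 0) := by
    refine wn_of_sep hW hg (fun k => hC (s k)) fun j => ?_
    refine squeeze_zero_norm' ?_ tendsto_one_div_add_atTop_nhds_zero_nat
    filter_upwards [eventually_ge_atTop j] with k hk
    exact (hs2 k j (Finset.mem_range.2 (by omega))).le
  have h2 := (Metric.tendsto_nhds.1 (hM (fun k => u (s k)) hv x y hxy)) ε hε
  obtain ⟨k, hk⟩ := h2.exists
  exact absurd (hs1 k) (not_le.2 hk)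

section

variable (hU : N314.OP.UW E)

/-- isotropy in the ultrapower -/
lemma iso_io (hM : PM E) (hW : N314.OP.WSC E) (hS : N314.OP.Sep E) {a b : E} (hab : ‖a‖ = ‖b‖)
    {ξ : X E} (hξ : Lm hU ξ = 0) : ‖io a + ξ‖ = ‖io b + ξ‖ := by
  obtain ⟨f, rfl⟩ := cl_surj ξ
  rw [Lm_cl] at hξ
  have h0 : ∀ g : StrongDual ℝ E, Tendsto (fun n => g (f n)) (hyperfilter ℕ : Filter ℕ) (𝓝 0) := by
    intro g
    have := wl_spec hU f g
    rwa [hξ, map_zero] at this
  have h1 := pm_ultra hM hW hS (hyperfilter ℕ) (fun n => f n) ‖f‖ (fun n => f.norm_coe_le_norm n)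
    h0 hab
  have h2 : ∀ c : E, Tendsto (fun n => ‖c + f n‖) (hyperfilter ℕ : Filter ℕ) (𝓝 ‖io c + cl f‖) := by
    intro c
    rw [io_apply, ← cl_add]
    refine (tendsto_norm _).congr fun n => ?_
    rfl
  have h3 := tendsto_nhds_unique h1 ((h2 a).sub (h2 b))
  linarith

lemma dec (ξ : X E) : io (Lm hU ξ) + PX hU ξ = ξ := by
  rw [PX_apply, add_sub_cancel]

/-- isotropy, second form -/
lemma iso (hM : PM E) (hW : N314.OP.WSC E) (hS : N314.OP.Sep E) {ξ η : X E}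
    (h1 : PX hU ξ = PX hU η) (h2 : ‖Lm hU ξ‖ = ‖Lm hU η‖) : ‖ξ‖ = ‖η‖ := by
  rw [← dec hU ξ, ← dec hU η, h1]
  exact iso_io hU hM hW hS h2 (Lm_PX hU η)

lemma PX_refl (hM : PM E) (hW : N314.OP.WSC E) (hS : N314.OP.Sep E) (ξ : X E) :
    ‖ξ - (2 : ℝ) • PX hU ξ‖ = ‖ξ‖ := by
  rw [← norm_neg]
  apply iso hU hM hW hS
  · rw [map_neg, map_sub, map_smul, PX_PX]
    module
  · rw [map_neg, map_sub, map_smul, Lm_PX, smul_zero, sub_zero, norm_neg]

lemma PX_le (hM : PM E) (hW : N314.OP.WSC E) (hS : N314.OP.Sep E) (ξ : X E) :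
    ‖PX hU ξ‖ ≤ ‖ξ‖ := by
  have e1 : PX hU ξ = (1 / 2 : ℝ) • (ξ - (ξ - (2 : ℝ) • PX hU ξ)) := by module
  rw [e1, norm_smul, Real.norm_of_nonneg (by norm_num : (0:ℝ) ≤ 1 / 2)]
  have := norm_sub_le ξ (ξ - (2 : ℝ) • PX hU ξ)
  rw [PX_refl hU hM hW hS] at this
  linarith

lemma PX_le' (ξ : X E) : ‖ξ - PX hU ξ‖ ≤ ‖ξ‖ := by
  rw [PX_apply, sub_sub_cancel, LinearIsometry.norm_map]
  exact Lm_norm hU ξ

end

end Pool.Agent.U234.KM
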