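import Pool.Agent.U234.KM.PM

/-!
# The compact semigroup of the weak limits of isometries of a reflexive space
-/

set_option autoImplicit false
set_option linter.unusedSectionVars false

namespace Pool.Agent.U234.KM

open Filter Topology

variable {E : Type*} [NormedAddCommGroup E] [NormedSpace ℝ E]

/-- the values of all functionals at all values -/
def Jm (Φ : Function.End E) (p : E × StrongDual ℝ E) : ℝ := p.2 ((Φ : E → E) p.1)

lemma Jm_inj : Function.Injective (Jm (E := E)) := by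
  intro Φ Ψ h
  funext y
  exact eq_of_dual fun f => congrFun h (y, f)

/-- the topology of pointwise weak convergence -/
local instance topEnd : TopologicalSpace (Function.End E) :=
  TopologicalSpace.induced Jm inferInstance

lemma cont_Jm : Continuous (Jm (E := E)) := continuous_induced_dom

lemma cont_coord (y : E) (f : StrongDual ℝ E) :
    Continuous fun Φ : Function.End E => f ((Φ : E → E) y) :=
  (continuous_apply (y, f)).comp cont_Jm

lemma cont_of {Y : Type*} [TopologicalSpace Y] {F : Y → Function.End E}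
    (h : ∀ (y : E) (f : StrongDual ℝ E), Continuous fun a => f ((F a : E → E) y)) :
    Continuous F := by
  refine continuous_induced_rng.2 (continuous_pi fun p => ?_)
  exact h p.1 p.2

lemma tendsto_End {ι : Type*} {l : Filter ι} {F : ι → Function.End E} {Φ : Function.End E} :
    Tendsto F l (𝓝 Φ) ↔
      ∀ (y : E) (f : StrongDual ℝ E), Tendsto (fun i => f ((F i : E → E) y)) l
        (𝓝 (f ((Φ : E → E) y))) := by
  rw [nhds_induced, tendsto_comap_iff, tendsto_pi_nhds]
  exact ⟨fun h y f => h (y, f), fun h p => h p.1 p.2⟩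

local instance t2End : T2Space (Function.End E) := T2Space.of_injective_continuous Jm_inj cont_Jm

/-- an isometry as an element of the semigroup -/
def co (T : E ≃ₗᵢ[ℝ] E) : Function.End E := fun y => T y

lemma cont_mulr (r : Function.End E) : Continuous (· * r : Function.End E → Function.End E) :=
  cont_of fun y f => cont_coord ((r : E → E) y) f

lemma cont_mull (T : E ≃ₗᵢ[ℝ] E) : Continuous (fun Φ : Function.End E => co T * Φ) :=
  cont_of fun y f => cont_coord y (f.comp (T.toContinuousLinearEquiv : E →L[ℝ] E))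

variable (E) in
/-- the weak limits of isometries -/
def Gb : Set (Function.End E) := closure (Set.range (co (E := E)))

lemma co_mul (S T : E ≃ₗᵢ[ℝ] E) : co S * co T = co (T.trans S) := rfl

lemma Gb_mul {Φ Ψ : Function.End E} (hΦ : Φ ∈ Gb E) (hΨ : Ψ ∈ Gb E) : Φ * Ψ ∈ Gb E := by
  have h1 : ∀ T : E ≃ₗᵢ[ℝ] E, co T * Ψ ∈ Gb E := by
    intro T
    refine map_mem_closure (f := fun Φ : Function.End E => co T * Φ) (cont_mull T) hΨ ?_
    rintro _ ⟨S, rfl⟩
    exact ⟨_, (co_mul T S).symm⟩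
  have h2 : Φ * Ψ ∈ closure (Gb E) := by
    refine map_mem_closure (f := fun Φ : Function.End E => Φ * Ψ) (cont_mulr Ψ) hΦ ?_
    rintro _ ⟨S, rfl⟩
    exact h1 S
  rwa [Gb, closure_closure] at h2

lemma norm_le_iff_dual {z : E} {c : ℝ} :
    ‖z‖ ≤ c ↔ ∀ f : StrongDual ℝ E, ‖f‖ ≤ 1 → f z ≤ c := by
  constructor
  · intro h f hf
    calc f z ≤ |f z| := le_abs_self _
      _ = ‖f z‖ := rfl
      _ ≤ ‖f‖ * ‖z‖ := f.le_opNorm _
      _ ≤ 1 * ‖z‖ := by gcongr
      _ ≤ c := by rw [one_mul]; exact h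
  · intro h
    obtain ⟨g, hg1, hg2⟩ := exists_dual_vector'' ℝ z
    have := h g hg1
    have h2 : g z = ‖z‖ := hg2
    linarith

lemma closed_norm (y : E) (c : ℝ) : IsClosed {Φ : Function.End E | ‖(Φ : E → E) y‖ ≤ c} := by
  have : {Φ : Function.End E | ‖(Φ : E → E) y‖ ≤ c} =
      ⋂ f : StrongDual ℝ E, ⋂ (_ : ‖f‖ ≤ 1), {Φ : Function.End E | f ((Φ : E → E) y) ≤ c} := by
    ext Φ
    simp only [Set.mem_ofPred_eq, Set.mem_iInter]
    exact norm_le_iff_dual
  rw [this]
  exact isClosed_iInter fun f => isClosed_iInter fun _ =>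
    isClosed_le (cont_coord y f) continuous_const

lemma closed_fix (y z : E) : IsClosed {Φ : Function.End E | (Φ : E → E) y = z} := by
  have : {Φ : Function.End E | (Φ : E → E) y = z} =
      ⋂ f : StrongDual ℝ E, {Φ : Function.End E | f ((Φ : E → E) y) = f z} := by
    ext Φ
    simp only [Set.mem_ofPred_eq, Set.mem_iInter]
    exact ⟨fun h f => by rw [h], fun h => eq_of_dual h⟩
  rw [this]
  exact isClosed_iInter fun f => isClosed_eq (cont_coord y f) continuous_const

lemma Gb_norm {Φ : Function.End E} (hΦ : Φ ∈ Gb E) (y : E) : ‖(Φ : E → E) y‖ ≤ ‖y‖ := by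
  have h := closure_minimal (s := Set.range (co (E := E))) (t := {Φ : Function.End E |
    ‖(Φ : E → E) y‖ ≤ ‖y‖}) (by
      rintro _ ⟨T, rfl⟩
      exact (T.norm_map y).le) (closed_norm y ‖y‖)
  exact h hΦ

lemma Gb_add {Φ : Function.End E} (hΦ : Φ ∈ Gb E) (a b : E) :
    (Φ : E → E) (a + b) = (Φ : E → E) a + (Φ : E → E) b := by
  apply eq_of_dual
  intro f
  have hc : IsClosed {Φ : Function.End E |
      f ((Φ : E → E) (a + b)) = f ((Φ : E → E) a) + f ((Φ : E → E) b)} :=
    isClosed_eq (cont_coord _ f) ((cont_coord _ f).add (cont_coord _ f))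
  have h := closure_minimal (s := Set.range (co (E := E))) (by
      rintro _ ⟨T, rfl⟩
      show f (T (a + b)) = f (T a) + f (T b)
      rw [map_add, map_add]) hc
  rw [map_add]
  exact h hΦ

lemma Gb_smul {Φ : Function.End E} (hΦ : Φ ∈ Gb E) (c : ℝ) (a : E) :
    (Φ : E → E) (c • a) = c • (Φ : E → E) a := by
  apply eq_of_dual
  intro f
  have hc : IsClosed {Φ : Function.End E |
      f ((Φ : E → E) (c • a)) = c * f ((Φ : E → E) a)} :=
    isClosed_eq (cont_coord _ f) ((cont_coord _ f).const_mul c)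
  have h := closure_minimal (s := Set.range (co (E := E))) (by
      rintro _ ⟨T, rfl⟩
      show f (T (c • a)) = c * f (T a)
      rw [map_smul, map_smul, smul_eq_mul]) hc
  rw [map_smul, smul_eq_mul]
  exact h hΦ

lemma Gb_compact (hr : Function.Surjective (NormedSpace.inclusionInDoubleDual ℝ E)) :
    IsCompact (Gb E) := by
  classical
  rw [isCompact_iff_ultrafilter_le_nhds]
  intro F hF
  have hb : ∀ (y : E) (Φ : Function.End E),
      ‖(if ‖(Φ : E → E) y‖ ≤ ‖y‖ then (Φ : E → E) y else 0 : E)‖ ≤ ‖y‖ := by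
    intro y Φ
    split_ifs with h
    · exact h
    · rw [norm_zero]; exact norm_nonneg _
  choose b hb2 using fun y => uw_gen hr F
    (fun Φ : Function.End E => (if ‖(Φ : E → E) y‖ ≤ ‖y‖ then (Φ : E → E) y else 0 : E)) ‖y‖ (hb y)
  let Φ0 : Function.End E := b
  have hlim : (F : Filter (Function.End E)) ≤ 𝓝 Φ0 := by
    have : Tendsto id (F : Filter (Function.End E)) (𝓝 Φ0) := by
      rw [tendsto_End]
      intro y f
      refine (hb2 y f).congr' ?_
      have h1 : Gb E ∈ (F : Filter (Function.End E)) := le_principal_iff.1 hF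
      filter_upwards [h1] with Φ hΦ
      rw [if_pos (Gb_norm hΦ y)]
      rfl
    rwa [tendsto_id'] at this
  refine ⟨Φ0, ?_, hlim⟩
  exact isClosed_closure.mem_of_tendsto (f := id) (b := (F : Filter (Function.End E)))
    (by rwa [tendsto_id']) (le_principal_iff.1 hF)

/-- limits along ultrafilters on the group -/
lemma Gb_ultra {Φ : Function.End E} (hΦ : Φ ∈ Gb E) :
    ∃ V : Ultrafilter (E ≃ₗᵢ[ℝ] E), ∀ (y : E) (f : StrongDual ℝ E),
      Tendsto (fun T : E ≃ₗᵢ[ℝ] E => f (T y)) V (𝓝 (f ((Φ : E → E) y))) := by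
  have hne : NeBot (comap (co (E := E)) (𝓝 Φ)) := by
    refine comap_neBot fun s hs => ?_
    obtain ⟨Ψ, hΨ1, ⟨T, rfl⟩⟩ := mem_closure_iff_nhds.1 hΦ s hs
    exact ⟨T, hΨ1⟩
  refine ⟨Ultrafilter.of (comap (co (E := E)) (𝓝 Φ)), fun y f => ?_⟩
  have h1 : Tendsto (co (E := E)) (Ultrafilter.of (comap (co (E := E)) (𝓝 Φ)) : Filter _) (𝓝 Φ) :=
    tendsto_comap.mono_left (Ultrafilter.of_le _)
  exact tendsto_End.1 h1 y f

lemma Gb_of_tendsto {T : ℕ → E ≃ₗᵢ[ℝ] E} {A : Function.End E}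
    (h : ∀ (y : E) (f : StrongDual ℝ E), Tendsto (fun n => f (T n y))
      (hyperfilter ℕ : Filter ℕ) (𝓝 (f ((A : E → E) y)))) : A ∈ Gb E := by
  have h1 : Tendsto (fun n => co (T n)) (hyperfilter ℕ : Filter ℕ) (𝓝 A) :=
    tendsto_End.2 h
  exact mem_closure_of_tendsto h1 (Eventually.of_forall fun n => ⟨T n, rfl⟩)

/-- **idempotents** (Ellis, Numakura) -/
theorem exists_idem (hr : Function.Surjective (NormedSpace.inclusionInDoubleDual ℝ E))
    {D : Function.End E} (hD : D ∈ Gb E) {x y1 : E} (hy1 : (D : E → E) y1 = y1) {c : ℝ}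
    (hx : ‖(D : E → E) x‖ ≤ c) :
    ∃ Q : Function.End E, Q ∈ Gb E ∧ (Q : E → E) y1 = y1 ∧ ‖(Q : E → E) x‖ ≤ c ∧
      ∀ z, (Q : E → E) ((Q : E → E) z) = (Q : E → E) z := by
  set s : Set (Function.End E) :=
    Gb E ∩ ({Φ | (Φ : E → E) y1 = y1} ∩ {Φ | ‖(Φ : E → E) x‖ ≤ c}) with hs
  obtain ⟨Q, hQ, hQQ⟩ := exists_idempotent_in_compact_subsemigroup (M := Function.End E)
    cont_mulr s ⟨D, hD, hy1, hx⟩
    ((Gb_compact hr).inter_right ((closed_fix y1 y1).inter (closed_norm x c)))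
    (by
      rintro Φ ⟨hΦ1, hΦ2, hΦ3⟩ Ψ ⟨hΨ1, hΨ2, hΨ3⟩
      refine ⟨Gb_mul hΦ1 hΨ1, ?_, ?_⟩
      · show (Φ : E → E) ((Ψ : E → E) y1) = y1
        have e1 : (Ψ : E → E) y1 = y1 := hΨ2
        have e2 : (Φ : E → E) y1 = y1 := hΦ2
        rw [e1, e2]
      · show ‖(Φ : E → E) ((Ψ : E → E) x)‖ ≤ c
        exact (Gb_norm hΦ1 _).trans hΨ3)
  exact ⟨Q, hQ.1, hQ.2.1, hQ.2.2, fun z => congrFun hQQ z⟩

end Pool.Agent.U234.KM
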