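import Pool.Agent.N314.OP.Wsc

/-!
# The Banach ultrapower of a reflexive space and the weak limit

`X E` is the ultrapower of `E` along a nonprincipal ultrafilter on the natural numbers.  Sequences of
isometries of `E` act on it by isometries, and if `E` is reflexive the weak limit is a contraction
`X E → E`, a left inverse of the diagonal embedding.
-/

set_option autoImplicit false
set_option linter.unusedSectionVars false

namespace Pool.Agent.U234.KM

open Filter Topology BoundedContinuousFunction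

variable {E : Type*} [NormedAddCommGroup E] [NormedSpace ℝ E]

/-- bounded sequences -/
noncomputable def mkB (f : ℕ → E) (C : ℝ) (h : ∀ n, ‖f n‖ ≤ C) : ℕ →ᵇ E :=
  BoundedContinuousFunction.ofNormedAddCommGroupDiscrete f C h

@[simp] lemma mkB_apply (f : ℕ → E) (C : ℝ) (h : ∀ n, ‖f n‖ ≤ C) (n : ℕ) : mkB f C h n = f n := rfl

variable (E) in
/-- the sequences which tend to zero in norm along the ultrafilter -/
def Nul : Submodule ℝ (ℕ →ᵇ E) where
  carrier := {f | Tendsto (fun n => ‖f n‖) (hyperfilter ℕ : Filter ℕ) (𝓝 0)}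
  add_mem' := by
    intro f g hf hg
    have h1 : Tendsto (fun n => ‖f n‖ + ‖g n‖) (hyperfilter ℕ : Filter ℕ) (𝓝 0) := by
      simpa using Tendsto.add hf hg
    exact squeeze_zero (fun n => norm_nonneg _) (fun n => norm_add_le _ _) h1
  zero_mem' := by
    have h : (fun n : ℕ => ‖(0 : ℕ →ᵇ E) n‖) = fun _ => (0 : ℝ) := by
      funext n; simp
    show Tendsto (fun n => ‖(0 : ℕ →ᵇ E) n‖) (hyperfilter ℕ : Filter ℕ) (𝓝 0)
    rw [h]
    exact tendsto_const_nhds
  smul_mem' := by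
    intro c f hf
    have h1 : Tendsto (fun n => ‖c‖ * ‖f n‖) (hyperfilter ℕ : Filter ℕ) (𝓝 0) := by
      simpa using Tendsto.const_mul ‖c‖ hf
    refine h1.congr fun n => ?_
    rw [← norm_smul]
    rfl

lemma mem_Nul {f : ℕ →ᵇ E} :
    f ∈ Nul E ↔ Tendsto (fun n => ‖f n‖) (hyperfilter ℕ : Filter ℕ) (𝓝 0) := Iff.rfl

instance closed_Nul : IsClosed (Nul E : Set (ℕ →ᵇ E)) := by
  rw [← closure_subset_iff_isClosed]
  intro f hf
  show Tendsto (fun n => ‖f n‖) (hyperfilter ℕ : Filter ℕ) (𝓝 0)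
  rw [Metric.tendsto_nhds]
  intro ε hε
  obtain ⟨g, hg, hfg⟩ := Metric.mem_closure_iff.1 hf (ε / 2) (by positivity)
  have hg' : Tendsto (fun n => ‖g n‖) (hyperfilter ℕ : Filter ℕ) (𝓝 0) := hg
  filter_upwards [(Metric.tendsto_nhds.1 hg') (ε / 2) (by positivity)] with n hn
  rw [Real.dist_eq, sub_zero, abs_of_nonneg (norm_nonneg _)] at hn ⊢
  rw [dist_eq_norm] at hfg
  have h1 : ‖f n‖ ≤ ‖g n‖ + ‖(f - g) n‖ := by
    have := norm_add_le (g n) ((f - g) n)
    rwa [BoundedContinuousFunction.sub_apply, add_sub_cancel] at this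
  have h2 := (f - g).norm_coe_le_norm n
  linarith

variable (E) in
/-- the ultrapower -/
abbrev X : Type _ := (ℕ →ᵇ E) ⧸ Nul E

/-- the class of a bounded sequence -/
noncomputable def cl (f : ℕ →ᵇ E) : X E := Submodule.Quotient.mk f

lemma cl_surj (ξ : X E) : ∃ f, cl f = ξ := Submodule.Quotient.mk_surjective _ ξ

lemma cl_add (f g : ℕ →ᵇ E) : cl (f + g) = cl f + cl g := rfl

lemma cl_sub (f g : ℕ →ᵇ E) : cl (f - g) = cl f - cl g := rfl

lemma cl_smul (c : ℝ) (f : ℕ →ᵇ E) : cl (c • f) = c • cl f := rfl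

lemma cl_eq {f g : ℕ →ᵇ E} :
    cl f = cl g ↔ Tendsto (fun n => ‖f n - g n‖) (hyperfilter ℕ : Filter ℕ) (𝓝 0) := by
  unfold cl
  rw [Submodule.Quotient.eq]
  rfl

/-- the norm of the ultrapower -/
lemma tendsto_norm (f : ℕ →ᵇ E) :
    Tendsto (fun n => ‖f n‖) (hyperfilter ℕ : Filter ℕ) (𝓝 ‖cl f‖) := by
  obtain ⟨L, -, hL⟩ := N314.OP.real_ultra (v := fun n => ‖f n‖) (M := ‖f‖)
    (fun n => by rw [abs_of_nonneg (norm_nonneg _)]; exact f.norm_coe_le_norm n) (hyperfilter ℕ)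
  have hL0 : 0 ≤ L := ge_of_tendsto' hL fun n => norm_nonneg _
  have h1 : ‖cl f‖ ≤ L := by
    refine le_of_forall_pos_le_add fun ε hε => ?_
    have hb : ∀ n, ‖(if ‖f n‖ < L + ε then f n else 0 : E)‖ ≤ L + ε := by
      intro n
      split_ifs with h
      · exact h.le
      · rw [norm_zero]; linarith
    have h2 : cl f = cl (mkB (fun n => if ‖f n‖ < L + ε then f n else 0) (L + ε) hb) := by
      rw [cl_eq]
      refine tendsto_const_nhds.congr' ?_
      filter_upwards [hL.eventually (gt_mem_nhds (by linarith : L < L + ε))] with n hn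
      rw [mkB_apply, if_pos hn, sub_self, norm_zero]
    rw [h2]
    refine (Submodule.Quotient.norm_mk_le (Nul E) _).trans ?_
    exact BoundedContinuousFunction.norm_ofNormedAddCommGroup_le _ (by linarith) hb
  have h3 : L ≤ ‖cl f‖ := by
    refine le_of_forall_pos_le_add fun ε hε => ?_
    obtain ⟨m, hm, hmn⟩ := Submodule.Quotient.norm_mk_lt (cl f) hε
    have h4 : cl f = cl m := hm.symm
    rw [cl_eq] at h4
    have h5 : Tendsto (fun n => ‖m‖ + ‖f n - m n‖) (hyperfilter ℕ : Filter ℕ) (𝓝 (‖m‖ + 0)) :=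
      h4.const_add _
    have h6 : L ≤ ‖m‖ + 0 := by
      refine le_of_tendsto_of_tendsto' hL h5 fun n => ?_
      have h7 := norm_add_le (m n) (f n - m n)
      rw [add_sub_cancel] at h7
      have h8 := m.norm_coe_le_norm n
      linarith
    linarith
  rw [le_antisymm h1 h3]
  exact hL

lemma norm_cl_eq {f : ℕ →ᵇ E} {L : ℝ}
    (h : Tendsto (fun n => ‖f n‖) (hyperfilter ℕ : Filter ℕ) (𝓝 L)) : ‖cl f‖ = L :=
  tendsto_nhds_unique (tendsto_norm f) h

/-- the diagonal embedding -/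
noncomputable def io : E →ₗᵢ[ℝ] X E where
  toFun e := cl (mkB (fun _ => e) ‖e‖ fun _ => le_rfl)
  map_add' a b := by
    rw [← cl_add, cl_eq]
    simp
  map_smul' c a := by
    rw [RingHom.id_apply, ← cl_smul, cl_eq]
    simp
  norm_map' e := norm_cl_eq (by simp)

lemma io_apply (e : E) : io e = cl (mkB (fun _ => e) ‖e‖ fun _ => le_rfl) := rfl

/-! ### sequences of isometries -/

/-- the action on bounded sequences -/
noncomputable def TB (T : ℕ → E ≃ₗᵢ[ℝ] E) : (ℕ →ᵇ E) →ₗ[ℝ] (ℕ →ᵇ E) where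
  toFun f := mkB (fun n => T n (f n)) ‖f‖ fun n => by
    rw [(T n).norm_map]; exact f.norm_coe_le_norm n
  map_add' f g := by
    ext n
    simp
  map_smul' c f := by
    ext n
    simp

@[simp] lemma TB_apply (T : ℕ → E ≃ₗᵢ[ℝ] E) (f : ℕ →ᵇ E) (n : ℕ) : TB T f n = T n (f n) := rfl

/-- the action on the ultrapower -/
noncomputable def TXl (T : ℕ → E ≃ₗᵢ[ℝ] E) : X E →ₗ[ℝ] X E :=
  (Nul E).mapQ (Nul E) (TB T) (by
    intro f hf
    have hf' : Tendsto (fun n => ‖f n‖) (hyperfilter ℕ : Filter ℕ) (𝓝 0) := hf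
    show Tendsto (fun n => ‖TB T f n‖) (hyperfilter ℕ : Filter ℕ) (𝓝 0)
    refine hf'.congr fun n => ?_
    rw [TB_apply, (T n).norm_map])

lemma TXl_cl (T : ℕ → E ≃ₗᵢ[ℝ] E) (f : ℕ →ᵇ E) : TXl T (cl f) = cl (TB T f) := rfl

lemma norm_TXl (T : ℕ → E ≃ₗᵢ[ℝ] E) (ξ : X E) : ‖TXl T ξ‖ = ‖ξ‖ := by
  obtain ⟨f, rfl⟩ := cl_surj ξ
  rw [TXl_cl]
  refine norm_cl_eq ((tendsto_norm f).congr fun n => ?_)
  rw [TB_apply, (T n).norm_map]

/-- the action on the ultrapower, as an isometry -/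
noncomputable def TX (T : ℕ → E ≃ₗᵢ[ℝ] E) : X E ≃ₗᵢ[ℝ] X E where
  toLinearEquiv := LinearEquiv.ofLinearMap (TXl T) (TXl fun n => (T n).symm)
    (by
      refine LinearMap.ext fun ξ => ?_
      obtain ⟨f, rfl⟩ := cl_surj ξ
      show TXl T (TXl (fun n => (T n).symm) (cl f)) = cl f
      rw [TXl_cl, TXl_cl]
      congr 1
      ext n
      simp)
    (by
      refine LinearMap.ext fun ξ => ?_
      obtain ⟨f, rfl⟩ := cl_surj ξ
      show TXl (fun n => (T n).symm) (TXl T (cl f)) = cl f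
      rw [TXl_cl, TXl_cl]
      congr 1
      ext n
      simp)
  norm_map' ξ := norm_TXl T ξ

lemma TX_cl (T : ℕ → E ≃ₗᵢ[ℝ] E) (f : ℕ →ᵇ E) : TX T (cl f) = cl (TB T f) := rfl

lemma TX_symm_cl (T : ℕ → E ≃ₗᵢ[ℝ] E) (f : ℕ →ᵇ E) :
    (TX T).symm (cl f) = cl (TB (fun n => (T n).symm) f) := rfl

/-! ### the weak limit -/

lemma eq_of_dual {a b : E} (h : ∀ f : StrongDual ℝ E, f a = f b) : a = b := by
  by_contra hne
  obtain ⟨f, -, hf⟩ := exists_dual_vector ℝ (a - b) (norm_ne_zero_iff.2 (sub_ne_zero.2 hne))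
  have h1 : f (a - b) = 0 := by rw [map_sub, h, sub_self]
  rw [h1] at hf
  have h2 : ‖a - b‖ = 0 := by
    have := hf.symm
    simpa using this
  exact hne (sub_eq_zero.1 (norm_eq_zero.1 h2))

section

variable (hW : N314.OP.UW E)

/-- the weak limit of a bounded sequence -/
noncomputable def wl (f : ℕ →ᵇ E) : E :=
  (hW f ‖f‖ (fun n => f.norm_coe_le_norm n) (hyperfilter ℕ)).choose

lemma wl_spec (f : ℕ →ᵇ E) (g : StrongDual ℝ E) :
    Tendsto (fun n => g (f n)) (hyperfilter ℕ : Filter ℕ) (𝓝 (g (wl hW f))) :=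
  (hW f ‖f‖ (fun n => f.norm_coe_le_norm n) (hyperfilter ℕ)).choose_spec g

lemma wl_eq {f : ℕ →ᵇ E} {a : E}
    (h : ∀ g : StrongDual ℝ E, Tendsto (fun n => g (f n)) (hyperfilter ℕ : Filter ℕ) (𝓝 (g a))) :
    wl hW f = a :=
  eq_of_dual fun g => tendsto_nhds_unique (wl_spec hW f g) (h g)

/-- the weak limit as a linear map -/
noncomputable def wlL : (ℕ →ᵇ E) →ₗ[ℝ] E where
  toFun := wl hW
  map_add' f g := by
    apply wl_eq
    intro φ
    have := (wl_spec hW f φ).add (wl_spec hW g φ)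
    rw [map_add]
    refine this.congr fun n => ?_
    rw [← map_add]
    rfl
  map_smul' c f := by
    apply wl_eq
    intro φ
    have := (wl_spec hW f φ).const_mul c
    rw [RingHom.id_apply, map_smul]
    refine this.congr fun n => ?_
    rw [← smul_eq_mul, ← map_smul]
    rfl

lemma wl_norm (f : ℕ →ᵇ E) : ‖wl hW f‖ ≤ ‖cl f‖ := by
  obtain ⟨g, hg1, hg2⟩ := exists_dual_vector'' ℝ (wl hW f)
  have h1 : g (wl hW f) ≤ ‖cl f‖ := by
    refine le_of_tendsto_of_tendsto' (wl_spec hW f g) (tendsto_norm f) fun n => ?_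
    calc g (f n) ≤ |g (f n)| := le_abs_self _
      _ = ‖g (f n)‖ := rfl
      _ ≤ ‖g‖ * ‖f n‖ := g.le_opNorm _
      _ ≤ 1 * ‖f n‖ := by gcongr
      _ = ‖f n‖ := one_mul _
  have h2 : g (wl hW f) = ‖wl hW f‖ := hg2
  linarith

lemma wlL_ker : Nul E ≤ LinearMap.ker (wlL hW) := by
  intro f hf
  rw [LinearMap.mem_ker]
  show wl hW f = 0
  have h1 : cl f = cl 0 := by
    rw [cl_eq]
    have hf' : Tendsto (fun n => ‖f n‖) (hyperfilter ℕ : Filter ℕ) (𝓝 0) := hf
    refine hf'.congr fun n => ?_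
    simp
  have h2 := wl_norm hW f
  rw [h1] at h2
  have h3 : ‖cl (0 : ℕ →ᵇ E)‖ = 0 := norm_cl_eq (by simp)
  rw [h3] at h2
  exact norm_le_zero_iff.1 h2

/-- the weak limit on the ultrapower -/
noncomputable def Lm : X E →L[ℝ] E :=
  LinearMap.mkContinuous ((Nul E).liftQ (wlL hW) (wlL_ker hW)) 1 (by
    intro ξ
    obtain ⟨f, rfl⟩ := cl_surj ξ
    rw [one_mul]
    exact wl_norm hW f)

lemma Lm_cl (f : ℕ →ᵇ E) : Lm hW (cl f) = wl hW f := rfl

lemma Lm_norm (ξ : X E) : ‖Lm hW ξ‖ ≤ ‖ξ‖ := by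
  obtain ⟨f, rfl⟩ := cl_surj ξ
  exact wl_norm hW f

lemma Lm_io (e : E) : Lm hW (io e) = e := by
  rw [io_apply, Lm_cl]
  apply wl_eq
  intro g
  simp

/-- the projection on the weakly null part -/
noncomputable def PX : X E →L[ℝ] X E :=
  ContinuousLinearMap.id ℝ (X E) - (io (E := E)).toContinuousLinearMap.comp (Lm hW)

lemma PX_apply (ξ : X E) : PX hW ξ = ξ - io (Lm hW ξ) := rfl

lemma Lm_PX (ξ : X E) : Lm hW (PX hW ξ) = 0 := by
  rw [PX_apply, map_sub, Lm_io, sub_self]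

lemma PX_PX (ξ : X E) : PX hW (PX hW ξ) = PX hW ξ := by
  rw [PX_apply hW (PX hW ξ), Lm_PX, map_zero, sub_zero]

lemma PX_io (e : E) : PX hW (io e) = 0 := by
  rw [PX_apply, Lm_io, sub_self]

lemma PX_zero_iff (ξ : X E) : PX hW ξ = 0 ↔ ξ = io (Lm hW ξ) := by
  rw [PX_apply, sub_eq_zero]

end

end Pool.Agent.U234.KM
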